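import Mathlib

set_option autoImplicit false

namespace Pool.Agent.Helper97.CycleDefs

/-- Convolution of two real functions on a finite abelian group. -/
noncomputable def conv {G : Type*} [Fintype G] [AddCommGroup G] (f g : G → ℝ) (x : G) : ℝ :=
  ∑ y, f y * g (x - y)

/-- The `t`-fold convolution power of `mu` (at `t = 0` the point mass at `0`): the law at time `t`
of the convolution walk with step law `mu` started at `0`. -/
noncomputable def stepLaw {G : Type*} [Fintype G] [AddCommGroup G] [DecidableEq G]
    (mu : G → ℝ) (t : ℕ) : G → ℝ :=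
  (conv mu)^[t] (fun x => if x = 0 then 1 else 0)

/-- Total-variation distance of the vector `f` to the uniform law. -/
noncomputable def tvUnif {G : Type*} [Fintype G] (f : G → ℝ) : ℝ :=
  (1 / 2) * ∑ x, |f x - 1 / (Fintype.card G : ℝ)|

/-- Mixing time at level `ε` of the walk with step law `mu`. -/
noncomputable def tmix {G : Type*} [Fintype G] [AddCommGroup G] [DecidableEq G]
    (mu : G → ℝ) (ε : ℝ) : ℕ :=
  sInf {t : ℕ | tvUnif (stepLaw mu t) ≤ ε}

/-- A symmetric, irreducible and aperiodic convolution walk on the cycle `ZMod n`, with `n ≥ 2`.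
`mu` is the step law (a symmetric probability vector); its support generates the group; and the
walk is aperiodic (at all large times the walk can be back at its starting point). -/
structure CycleWalk where
  n : ℕ
  [neZero : NeZero n]
  two_le : 2 ≤ n
  mu : ZMod n → ℝ
  nonneg : ∀ x, 0 ≤ mu x
  sum_one : ∑ x, mu x = 1
  symm : ∀ x, mu (-x) = mu x
  irred : AddSubgroup.closure {x | mu x ≠ 0} = ⊤
  aper : ∃ T : ℕ, ∀ t ≥ T, 0 < stepLaw mu t 0

attribute [instance] CycleWalk.neZero

/-- The eigenvalue of the walk with index `j`. -/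
noncomputable def eigen (W : CycleWalk) (j : ZMod W.n) : ℝ :=
  ∑ x : ZMod W.n, W.mu x * Real.cos (2 * Real.pi * (j.val : ℝ) * (x.val : ℝ) / (W.n : ℝ))

/-- Largest absolute value of an eigenvalue with nonzero index. -/
noncomputable def lamStar (W : CycleWalk) : ℝ :=
  ⨆ j : {j : ZMod W.n // j ≠ 0}, |eigen W j.1|

/-- Relaxation time (inverse of the absolute spectral gap). -/
noncomputable def trel (W : CycleWalk) : ℝ := 1 / (1 - lamStar W)

/-- The mixing time of the walk at level `ε`. -/
noncomputable def mixTime (W : CycleWalk) (ε : ℝ) : ℕ := tmix W.mu ε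

/-- The product condition for a sequence of walks. -/
def ProductCondition (W : ℕ → CycleWalk) : Prop :=
  Filter.Tendsto (fun k => (mixTime (W k) (1/4) : ℝ) / trel (W k)) Filter.atTop Filter.atTop

/-- Total-variation cutoff for a sequence of walks. -/
def HasCutoff (W : ℕ → CycleWalk) : Prop :=
  ∀ ε : ℝ, 0 < ε → ε < 1/2 →
    Filter.Tendsto (fun k => (mixTime (W k) ε : ℝ) / (mixTime (W k) (1 - ε) : ℝ))
      Filter.atTop (nhds 1)

/-- The walk is the simple random walk on a loop-free unweighted Cayley graph of the cycle:
the step law is uniform on a finite set not containing `0`. -/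
def IsSimpleRandomWalk (W : CycleWalk) : Prop :=
  ∃ S : Finset (ZMod W.n), (0 : ZMod W.n) ∉ S ∧
    ∀ x, W.mu x = if x ∈ S then 1 / (S.card : ℝ) else 0

end Pool.Agent.Helper97.CycleDefs
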