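import Mathlib
import Pool.Agent.Helper97.CycleDefs

set_option autoImplicit false

namespace Pool.Agent.Helper97.CycleProof

open Finset Pool.Agent.Helper97.CycleDefs


section General

variable {G : Type*} [Fintype G] [AddCommGroup G]

theorem stepLaw_zero [DecidableEq G] (mu : G → ℝ) :
    stepLaw mu 0 = fun x => if x = 0 then 1 else 0 := rfl

theorem stepLaw_succ [DecidableEq G] (mu : G → ℝ) (t : ℕ) :
    stepLaw mu (t + 1) = conv mu (stepLaw mu t) := Function.iterate_succ_apply' _ _ _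

theorem conv_comm (f g : G → ℝ) : conv f g = conv g f := by
  funext x
  unfold conv
  rw [← Equiv.sum_comp (Equiv.subLeft x)]
  refine Finset.sum_congr rfl fun y _ => ?_
  simp [mul_comm]

theorem conv_nonneg {f g : G → ℝ} (hf : ∀ x, 0 ≤ f x) (hg : ∀ x, 0 ≤ g x) (x : G) :
    0 ≤ conv f g x :=
  Finset.sum_nonneg fun y _ => mul_nonneg (hf y) (hg _)

theorem conv_mono {f f' g g' : G → ℝ} (hf : ∀ x, 0 ≤ f x) (hg : ∀ x, 0 ≤ g x)
    (hff : ∀ x, f x ≤ f' x) (hgg : ∀ x, g x ≤ g' x) (x : G) :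
    conv f g x ≤ conv f' g' x := by
  refine Finset.sum_le_sum fun y _ => ?_
  exact mul_le_mul (hff y) (hgg _) (hg _) ((hf y).trans (hff y))

theorem sum_conv (f g : G → ℝ) : ∑ x, conv f g x = (∑ x, f x) * ∑ x, g x := by
  unfold conv
  rw [Finset.sum_comm, Finset.sum_mul]
  refine Finset.sum_congr rfl fun y _ => ?_
  rw [← Finset.mul_sum]
  congr 1
  exact Equiv.sum_comp (Equiv.subRight y) g

theorem conv_assoc (f g h : G → ℝ) : conv (conv f g) h = conv f (conv g h) := by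
  funext x
  unfold conv
  simp_rw [Finset.sum_mul, Finset.mul_sum]
  rw [Finset.sum_comm]
  refine Finset.sum_congr rfl fun y _ => ?_
  rw [← Equiv.sum_comp (Equiv.addRight y)]
  refine Finset.sum_congr rfl fun z _ => ?_
  simp only [Equiv.coe_addRight, add_sub_cancel_right]
  rw [mul_assoc]
  congr 3
  abel

theorem abs_conv_le (f g : G → ℝ) : ∑ x, |conv f g x| ≤ (∑ x, |f x|) * ∑ x, |g x| := by
  rw [← sum_conv (fun x => |f x|) (fun x => |g x|)]
  refine Finset.sum_le_sum fun x _ => ?_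
  unfold conv
  refine (Finset.abs_sum_le_sum_abs _ _).trans ?_
  refine Finset.sum_le_sum fun y _ => ?_
  rw [abs_mul]

theorem conv_add_right (f g h : G → ℝ) : conv f (fun x => g x + h x) = fun x => conv f g x + conv f h x := by
  funext x
  simp [conv, mul_add, Finset.sum_add_distrib]

theorem conv_sub_right (f g h : G → ℝ) : conv f (fun x => g x - h x) = fun x => conv f g x - conv f h x := by
  funext x
  simp [conv, mul_sub, Finset.sum_sub_distrib]

theorem conv_sub_left (f g h : G → ℝ) : conv (fun x => f x - g x) h = fun x => conv f h x - conv g h x := by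
  funext x
  simp [conv, sub_mul, Finset.sum_sub_distrib]

theorem conv_smul_left (c : ℝ) (f g : G → ℝ) : conv (fun x => c * f x) g = fun x => c * conv f g x := by
  funext x
  simp [conv, mul_assoc, Finset.mul_sum]

theorem conv_smul_right (c : ℝ) (f g : G → ℝ) : conv f (fun x => c * g x) = fun x => c * conv f g x := by
  funext x
  simp only [conv, Finset.mul_sum]
  refine Finset.sum_congr rfl fun y _ => ?_
  ring

theorem conv_const_left (c : ℝ) (f : G → ℝ) : conv (fun _ => c) f = fun _ => c * ∑ x, f x := by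
  funext x
  unfold conv
  rw [← Finset.mul_sum]
  congr 1
  exact Equiv.sum_comp (Equiv.subLeft x) f

theorem conv_const_right (c : ℝ) (f : G → ℝ) : conv f (fun _ => c) = fun _ => c * ∑ x, f x := by
  rw [conv_comm, conv_const_left]

variable [DecidableEq G]

theorem conv_delta_left (f : G → ℝ) : conv (fun x => if x = 0 then (1:ℝ) else 0) f = f := by
  funext x
  unfold conv
  rw [Finset.sum_eq_single 0]
  · simp
  · intro y _ hy
    simp [hy]
  · intro h
    exact absurd (Finset.mem_univ _) h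

theorem stepLaw_nonneg {mu : G → ℝ} (h : ∀ x, 0 ≤ mu x) (t : ℕ) : ∀ x, 0 ≤ stepLaw mu t x := by
  induction t with
  | zero => intro x; simp only [stepLaw_zero]; split_ifs <;> norm_num
  | succ t ih => intro x; rw [stepLaw_succ]; exact conv_nonneg h ih x

theorem sum_stepLaw {mu : G → ℝ} (h : ∑ x, mu x = 1) (t : ℕ) : ∑ x, stepLaw mu t x = 1 := by
  induction t with
  | zero => simp [stepLaw_zero]
  | succ t ih => simp only [stepLaw_succ]; rw [sum_conv, h, ih, one_mul]

theorem stepLaw_one (mu : G → ℝ) : stepLaw mu 1 = mu := by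
  simp only [stepLaw_succ]
  rw [conv_comm]
  exact conv_delta_left mu

theorem stepLaw_add (mu : G → ℝ) (s t : ℕ) : stepLaw mu (s + t) = conv (stepLaw mu s) (stepLaw mu t) := by
  induction s with
  | zero => simp only [Nat.zero_add, stepLaw]; exact (conv_delta_left _).symm
  | succ s ih =>
    have : s + 1 + t = (s + t) + 1 := by ring
    rw [this]
    simp only [stepLaw_succ]
    rw [ih, conv_assoc]

theorem stepLaw_mono {mu nu : G → ℝ} (h0 : ∀ x, 0 ≤ mu x) (h : ∀ x, mu x ≤ nu x) (t : ℕ) :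
    ∀ x, stepLaw mu t x ≤ stepLaw nu t x := by
  induction t with
  | zero => intro x; exact le_refl _
  | succ t ih =>
    intro x
    rw [stepLaw_succ, stepLaw_succ]
    exact conv_mono h0 (stepLaw_nonneg h0 t) h ih x

theorem stepLaw_smul (c : ℝ) (mu : G → ℝ) (t : ℕ) :
    stepLaw (fun x => c * mu x) t = fun x => c ^ t * stepLaw mu t x := by
  induction t with
  | zero => funext x; simp [stepLaw_zero]
  | succ t ih =>
    simp only [stepLaw_succ]
    rw [ih, conv_smul_left, conv_smul_right]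
    funext x
    ring

theorem card_pos' : (0:ℝ) < Fintype.card G := by
  have : 0 < Fintype.card G := Fintype.card_pos
  exact_mod_cast this

/-- Doeblin contraction. -/
theorem doeblin {nu : G → ℝ} {c : ℝ} (hc0 : 0 ≤ c) (hnu : ∀ x, c / (Fintype.card G : ℝ) ≤ nu x)
    (hs : ∑ x, nu x = 1) (f : G → ℝ) (hf : ∑ x, f x = 1) :
    tvUnif (conv nu f) ≤ (1 - c) * tvUnif f := by
  have hN : (0:ℝ) < Fintype.card G := card_pos'
  unfold tvUnif
  have key : (fun x => conv nu f x - 1 / (Fintype.card G : ℝ)) =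
      conv (fun x => nu x - c / (Fintype.card G : ℝ)) (fun x => f x - 1 / (Fintype.card G : ℝ)) := by
    rw [conv_sub_left, conv_sub_right, conv_sub_right]
    funext x
    rw [conv_const_left, conv_const_left, conv_const_right, hs, hf]
    simp only [Finset.sum_const, Finset.card_univ, nsmul_eq_mul]
    field_simp
    ring
  have h1 := abs_conv_le (fun x => nu x - c / (Fintype.card G : ℝ)) (fun x => f x - 1 / (Fintype.card G : ℝ))
  rw [← key] at h1
  have h2 : ∑ x, |nu x - c / (Fintype.card G : ℝ)| = 1 - c := by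
    have : ∀ x ∈ (Finset.univ : Finset G), |nu x - c / (Fintype.card G : ℝ)| = nu x - c / (Fintype.card G : ℝ) := by
      intro x _
      exact abs_of_nonneg (sub_nonneg.2 (hnu x))
    rw [Finset.sum_congr rfl this, Finset.sum_sub_distrib, hs]
    simp only [Finset.sum_const, Finset.card_univ, nsmul_eq_mul]
    field_simp
  rw [h2] at h1
  calc (1/2) * ∑ x, |conv nu f x - 1 / (Fintype.card G : ℝ)|
      ≤ (1/2) * ((1 - c) * ∑ x, |f x - 1 / (Fintype.card G : ℝ)|) := by
        exact mul_le_mul_of_nonneg_left h1 (by norm_num)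
    _ = (1 - c) * ((1/2) * ∑ x, |f x - 1 / (Fintype.card G : ℝ)|) := by ring

theorem tvUnif_nonneg (f : G → ℝ) : 0 ≤ tvUnif f := by
  unfold tvUnif
  positivity

theorem tvUnif_le_one {f : G → ℝ} (h0 : ∀ x, 0 ≤ f x) (h1 : ∑ x, f x = 1) : tvUnif f ≤ 1 := by
  have hN : (0:ℝ) < Fintype.card G := card_pos'
  unfold tvUnif
  have : ∑ x, |f x - 1 / (Fintype.card G : ℝ)| ≤ ∑ x, (f x + 1 / (Fintype.card G : ℝ)) := by
    refine Finset.sum_le_sum fun x _ => ?_
    have h2 : (0:ℝ) ≤ 1 / (Fintype.card G : ℝ) := by positivity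
    rw [abs_le]
    constructor <;> linarith [h0 x]
  rw [Finset.sum_add_distrib, h1] at this
  simp only [Finset.sum_const, Finset.card_univ, nsmul_eq_mul] at this
  have h3 : (Fintype.card G : ℝ) * (1 / (Fintype.card G : ℝ)) = 1 := by field_simp
  rw [h3] at this
  linarith

/-- Iterated Doeblin bound. -/
theorem tv_doeblin_iter {mu : G → ℝ} (h0 : ∀ x, 0 ≤ mu x) (h1 : ∑ x, mu x = 1) {c : ℝ} (hc0 : 0 ≤ c)
    (m : ℕ) (hm : ∀ x, c / (Fintype.card G : ℝ) ≤ stepLaw mu m x) (s : ℕ) :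
    tvUnif (stepLaw mu (m * s)) ≤ (1 - c) ^ s := by
  have hN : (0:ℝ) < Fintype.card G := card_pos'
  have hc1 : c ≤ 1 := by
    have h := Finset.sum_le_sum (fun x (_ : x ∈ (Finset.univ : Finset G)) => hm x)
    rw [sum_stepLaw h1] at h
    simp only [Finset.sum_const, Finset.card_univ, nsmul_eq_mul] at h
    have : (Fintype.card G : ℝ) * (c / (Fintype.card G : ℝ)) = c := by field_simp
    linarith
  induction s with
  | zero =>
    simp only [mul_zero, pow_zero]
    exact tvUnif_le_one (stepLaw_nonneg h0 0) (sum_stepLaw h1 0)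
  | succ s ih =>
    have e : m * (s + 1) = m + m * s := by ring
    rw [e, stepLaw_add, pow_succ]
    calc tvUnif (conv (stepLaw mu m) (stepLaw mu (m * s)))
        ≤ (1 - c) * tvUnif (stepLaw mu (m * s)) :=
          doeblin hc0 hm (sum_stepLaw h1 m) _ (sum_stepLaw h1 _)
      _ ≤ (1 - c) * (1 - c) ^ s := mul_le_mul_of_nonneg_left ih (by linarith)
      _ = (1 - c) ^ s * (1 - c) := by ring

/-- Lower bound for the distance by a test set. -/
theorem tv_lower {f : G → ℝ} (h1 : ∑ x, f x = 1) (E : Finset G) :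
    ∑ x ∈ E, f x - (E.card : ℝ) / (Fintype.card G : ℝ) ≤ tvUnif f := by
  have hN : (0:ℝ) < Fintype.card G := card_pos'
  unfold tvUnif
  have hz : ∑ x, (f x - 1 / (Fintype.card G : ℝ)) = 0 := by
    rw [Finset.sum_sub_distrib, h1]
    simp only [Finset.sum_const, Finset.card_univ, nsmul_eq_mul]
    field_simp
    ring
  have hE : ∑ x ∈ E, f x - (E.card : ℝ) / (Fintype.card G : ℝ) = ∑ x ∈ E, (f x - 1 / (Fintype.card G : ℝ)) := by
    rw [Finset.sum_sub_distrib]
    simp only [Finset.sum_const, nsmul_eq_mul]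
    ring
  rw [hE]
  have hsplit : ∑ x ∈ E, (f x - 1 / (Fintype.card G : ℝ)) + ∑ x ∈ Eᶜ, (f x - 1 / (Fintype.card G : ℝ)) = 0 := by
    rw [Finset.sum_add_sum_compl, hz]
  have habs : ∑ x ∈ E, |f x - 1 / (Fintype.card G : ℝ)| + ∑ x ∈ Eᶜ, |f x - 1 / (Fintype.card G : ℝ)|
      = ∑ x, |f x - 1 / (Fintype.card G : ℝ)| := Finset.sum_add_sum_compl _ _
  have h2 : ∑ x ∈ E, (f x - 1 / (Fintype.card G : ℝ)) ≤ ∑ x ∈ E, |f x - 1 / (Fintype.card G : ℝ)| :=
    Finset.sum_le_sum fun x _ => le_abs_self _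
  have h3 : -∑ x ∈ Eᶜ, (f x - 1 / (Fintype.card G : ℝ)) ≤ ∑ x ∈ Eᶜ, |f x - 1 / (Fintype.card G : ℝ)| := by
    rw [← Finset.sum_neg_distrib]
    exact Finset.sum_le_sum fun x _ => neg_le_abs _
  linarith

end General

section Transport

variable {G H : Type*} [Fintype G] [AddCommGroup G] [Fintype H] [AddCommGroup H]

theorem conv_transport (e : G ≃+ H) (f g : H → ℝ) :
    conv (fun x => f (e x)) (fun x => g (e x)) = fun x => conv f g (e x) := by
  funext x
  unfold conv
  rw [← Equiv.sum_comp e.toEquiv (fun y => f y * g (e x - y))]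
  refine Finset.sum_congr rfl fun y _ => ?_
  simp

theorem stepLaw_transport [DecidableEq G] [DecidableEq H] (e : G ≃+ H) (f : H → ℝ) (t : ℕ) :
    stepLaw (fun x => f (e x)) t = fun x => stepLaw f t (e x) := by
  induction t with
  | zero => funext x; simp [stepLaw_zero]
  | succ t ih =>
    simp only [stepLaw_succ]
    rw [ih]
    exact conv_transport e f (stepLaw f t)

theorem tvUnif_transport (e : G ≃+ H) (f : H → ℝ) : tvUnif (fun x => f (e x)) = tvUnif f := by
  unfold tvUnif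
  rw [Fintype.card_congr e.toEquiv]
  congr 1
  exact Equiv.sum_comp e.toEquiv (fun y => |f y - 1 / (Fintype.card H : ℝ)|)

theorem tmix_transport [DecidableEq G] [DecidableEq H] (e : G ≃+ H) (f : H → ℝ) (ε : ℝ) :
    tmix (fun x => f (e x)) ε = tmix f ε := by
  unfold tmix
  congr 1
  ext t
  simp only [Set.mem_setOf_eq]
  rw [stepLaw_transport, tvUnif_transport e (stepLaw f t)]

end Transport

section Products

theorem sum_prod_type {A B : Type*} [Fintype A] [Fintype B] (f : A → ℝ) (h : B → ℝ) :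
    ∑ z : A × B, f z.1 * h z.2 = (∑ a, f a) * ∑ b, h b := by
  rw [Fintype.sum_prod_type, Finset.sum_mul_sum]

theorem conv_prod {A B : Type*} [Fintype A] [Fintype B] [AddCommGroup A] [AddCommGroup B]
    (f f' : A → ℝ) (h h' : B → ℝ) :
    conv (fun z : A × B => f z.1 * h z.2) (fun z => f' z.1 * h' z.2) =
      fun z => conv f f' z.1 * conv h h' z.2 := by
  funext z
  unfold conv
  rw [← sum_prod_type (fun a => f a * f' (z.1 - a)) (fun b => h b * h' (z.2 - b))]
  refine Finset.sum_congr rfl fun w _ => ?_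
  simp only [Prod.fst_sub, Prod.snd_sub]
  ring

theorem sum_pi {ι : Type*} [Fintype ι] [DecidableEq ι] {κ : ι → Type*} [∀ i, Fintype (κ i)]
    (f : ∀ i, κ i → ℝ) : ∑ x : (∀ i, κ i), ∏ i, f i (x i) = ∏ i, ∑ a, f i a := by
  rw [Finset.prod_univ_sum, Fintype.piFinset_univ]

theorem conv_pi {ι : Type*} [Fintype ι] [DecidableEq ι] {κ : ι → Type*} [∀ i, Fintype (κ i)]
    [∀ i, AddCommGroup (κ i)] (f g : ∀ i, κ i → ℝ) :
    conv (fun x : (∀ i, κ i) => ∏ i, f i (x i)) (fun x => ∏ i, g i (x i)) =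
      fun x => ∏ i, conv (f i) (g i) (x i) := by
  funext x
  unfold conv
  rw [← sum_pi (fun i a => f i a * g i (x i - a))]
  refine Finset.sum_congr rfl fun w _ => ?_
  rw [← Finset.prod_mul_distrib]
  rfl

theorem stepLaw_prod {A B : Type*} [Fintype A] [Fintype B] [AddCommGroup A] [AddCommGroup B]
    [DecidableEq A] [DecidableEq B] (f : A → ℝ) (h : B → ℝ) (t : ℕ) :
    stepLaw (fun z : A × B => f z.1 * h z.2) t = fun z => stepLaw f t z.1 * stepLaw h t z.2 := by
  induction t with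
  | zero =>
    funext z
    simp only [stepLaw_zero, Prod.ext_iff, Prod.fst_zero, Prod.snd_zero]
    split_ifs with h1 h2 h3 <;> simp_all
  | succ t ih =>
    simp only [stepLaw_succ]
    rw [ih, conv_prod]

theorem stepLaw_pi {ι : Type*} [Fintype ι] [DecidableEq ι] {κ : ι → Type*} [∀ i, Fintype (κ i)]
    [∀ i, AddCommGroup (κ i)] [∀ i, DecidableEq (κ i)] (f : ∀ i, κ i → ℝ) (t : ℕ) :
    stepLaw (fun x : (∀ i, κ i) => ∏ i, f i (x i)) t = fun x => ∏ i, stepLaw (f i) t (x i) := by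
  induction t with
  | zero =>
    funext x
    simp only [stepLaw_zero]
    rw [Finset.prod_ite_zero]
    simp [funext_iff]
  | succ t ih =>
    simp only [stepLaw_succ]
    rw [ih, conv_pi]

end Products



section Cross

variable {X Y : Type*} [Fintype X] [Fintype Y] [AddCommGroup X] [AddCommGroup Y]
  [DecidableEq X] [DecidableEq Y]

/-- The cross in a product of two groups. -/
def cross (X Y : Type*) [Fintype X] [Fintype Y] [AddCommGroup X] [AddCommGroup Y]
    [DecidableEq X] [DecidableEq Y] : Finset (X × Y) :=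
  Finset.univ.filter fun z => z.1 = 0 ∨ z.2 = 0

theorem sum_cross {M : Type*} [AddCommGroup M] (f : X × Y → M) :
    ∑ z ∈ cross X Y, f z = (∑ x, f (x, 0)) + (∑ y, f (0, y)) - f (0, 0) := by
  have h1 : ∑ z ∈ cross X Y, f z = ∑ z : X × Y, if (z.1 = 0 ∨ z.2 = 0) then f z else 0 := by
    rw [cross, Finset.sum_filter]
  rw [h1]
  have h2 : ∀ z : X × Y, (if (z.1 = 0 ∨ z.2 = 0) then f z else 0) =
      (if z.2 = 0 then f z else 0) + (if z.1 = 0 then f z else 0) - (if z = 0 then f z else 0) := by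
    intro z
    by_cases ha : z.1 = 0 <;> by_cases hb : z.2 = 0 <;> simp [ha, hb, Prod.ext_iff]
  rw [Finset.sum_congr rfl (fun z _ => h2 z), Finset.sum_sub_distrib, Finset.sum_add_distrib]
  congr 1
  · congr 1
    · rw [Fintype.sum_prod_type]
      simp
    · rw [Fintype.sum_prod_type_right]
      simp
  · simp only [Finset.sum_ite_eq', Finset.mem_univ, if_true]
    rfl

theorem card_cross : ((cross X Y).card : ℝ) = (Fintype.card X : ℝ) + (Fintype.card Y : ℝ) - 1 := by
  have h := sum_cross (X := X) (Y := Y) (fun _ => (1:ℝ))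
  simpa using h

theorem sum_cross_char_le (ψ : AddChar (X × Y) ℂ) : ‖∑ z ∈ cross X Y, ψ z‖ ≤ ((cross X Y).card : ℝ) := by
  refine (norm_sum_le _ _).trans ?_
  simp

theorem sum_cross_char {ψ : AddChar (X × Y) ℂ} (hψ : ψ ≠ 1)
    (hX : 2 ≤ Fintype.card X) (hY : 2 ≤ Fintype.card Y)
    (hXY : Fintype.card X ≤ 2 * Fintype.card Y + 1) (hYX : Fintype.card Y ≤ 2 * Fintype.card X + 1) :
    ‖∑ z ∈ cross X Y, ψ z‖ ≤ (2/3) * ((cross X Y).card : ℝ) := by
  rw [sum_cross, card_cross]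
  set ψX : AddChar X ℂ := ψ.compAddMonoidHom (AddMonoidHom.inl X Y) with hψX
  set ψY : AddChar Y ℂ := ψ.compAddMonoidHom (AddMonoidHom.inr X Y) with hψY
  have e1 : ∑ x : X, ψ (x, 0) = ∑ x, ψX x := by
    refine Finset.sum_congr rfl fun x _ => ?_
    simp [hψX]
  have e2 : ∑ y : Y, ψ (0, y) = ∑ y, ψY y := by
    refine Finset.sum_congr rfl fun x _ => ?_
    simp [hψY]
  have e3 : ψ ((0:X), (0:Y)) = 1 := by
    have : ((0:X), (0:Y)) = 0 := rfl
    rw [this, AddChar.map_zero_eq_one]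
  rw [e1, e2, e3]
  have hX' : (2:ℝ) ≤ Fintype.card X := by exact_mod_cast hX
  have hY' : (2:ℝ) ≤ Fintype.card Y := by exact_mod_cast hY
  have hXY' : (Fintype.card X : ℝ) ≤ 2 * Fintype.card Y + 1 := by exact_mod_cast hXY
  have hYX' : (Fintype.card Y : ℝ) ≤ 2 * Fintype.card X + 1 := by exact_mod_cast hYX
  by_cases hx : ψX = 1
  · by_cases hy : ψY = 1
    · exfalso
      apply hψ
      ext z
      have hz : z = (z.1, 0) + (0, z.2) := by simp
      rw [hz, AddChar.map_add_eq_mul]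
      have h1 : ψ (z.1, 0) = ψX z.1 := by simp [hψX]
      have h2 : ψ (0, z.2) = ψY z.2 := by simp [hψY]
      rw [h1, h2, hx, hy]
      simp
    · rw [AddChar.sum_eq_zero_of_ne_one hy, hx]
      simp only [AddChar.one_apply, Finset.sum_const, Finset.card_univ, nsmul_eq_mul, mul_one, add_zero]
      have : ((Fintype.card X : ℂ) - 1) = (((Fintype.card X : ℝ) - 1 : ℝ) : ℂ) := by push_cast; ring
      rw [this, Complex.norm_real, Real.norm_eq_abs, abs_of_nonneg (by linarith)]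
      linarith
  · by_cases hy : ψY = 1
    · rw [AddChar.sum_eq_zero_of_ne_one hx, hy]
      simp only [AddChar.one_apply, Finset.sum_const, Finset.card_univ, nsmul_eq_mul, mul_one, zero_add]
      have : ((Fintype.card Y : ℂ) - 1) = (((Fintype.card Y : ℝ) - 1 : ℝ) : ℂ) := by push_cast; ring
      rw [this, Complex.norm_real, Real.norm_eq_abs, abs_of_nonneg (by linarith)]
      linarith
    · rw [AddChar.sum_eq_zero_of_ne_one hx, AddChar.sum_eq_zero_of_ne_one hy]
      simp only [add_zero, zero_sub, norm_neg, norm_one]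
      linarith

end Cross

theorem addChar_map_sum {ι A : Type*} [AddCommGroup A] (ψ : AddChar A ℂ) (s : Finset ι) (f : ι → A) :
    ψ (∑ i ∈ s, f i) = ∏ i ∈ s, ψ (f i) := by
  classical
  induction s using Finset.induction_on with
  | empty => simp
  | insert a s ha ih => rw [Finset.sum_insert ha, Finset.prod_insert ha, AddChar.map_add_eq_mul, ih]

section PiChar

variable {ι : Type*} [Fintype ι] [DecidableEq ι] {X Y : ι → Type*} [∀ i, Fintype (X i)]
  [∀ i, Fintype (Y i)] [∀ i, AddCommGroup (X i)] [∀ i, AddCommGroup (Y i)]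
  [∀ i, DecidableEq (X i)] [∀ i, DecidableEq (Y i)]

/-- Product of the crosses. -/
def bset (X Y : ι → Type*) [∀ i, Fintype (X i)]
  [∀ i, Fintype (Y i)] [∀ i, AddCommGroup (X i)] [∀ i, AddCommGroup (Y i)]
  [∀ i, DecidableEq (X i)] [∀ i, DecidableEq (Y i)] : Finset (∀ i, X i × Y i) :=
  Fintype.piFinset fun i => cross (X i) (Y i)

theorem card_bset : ((bset X Y).card : ℝ) =
    ∏ i, ((Fintype.card (X i) : ℝ) + (Fintype.card (Y i) : ℝ) - 1) := by
  rw [bset, Fintype.card_piFinset]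
  push_cast
  exact Finset.prod_congr rfl fun i _ => card_cross

theorem sum_bset_char_le (ψ : AddChar (∀ i, X i × Y i) ℂ) :
    ‖∑ z ∈ bset X Y, ψ z‖ ≤ ((bset X Y).card : ℝ) := by
  refine (norm_sum_le _ _).trans ?_
  simp

theorem sum_bset_char {ψ : AddChar (∀ i, X i × Y i) ℂ} (hψ : ψ ≠ 1)
    (hX : ∀ i, 2 ≤ Fintype.card (X i)) (hY : ∀ i, 2 ≤ Fintype.card (Y i))
    (hXY : ∀ i, Fintype.card (X i) ≤ 2 * Fintype.card (Y i) + 1)
    (hYX : ∀ i, Fintype.card (Y i) ≤ 2 * Fintype.card (X i) + 1) :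
    ‖∑ z ∈ bset X Y, ψ z‖ ≤ (2/3) * ((bset X Y).card : ℝ) := by
  set ψi : ∀ i, AddChar (X i × Y i) ℂ := fun i =>
    ψ.compAddMonoidHom (AddMonoidHom.single (fun i => X i × Y i) i) with hψi
  have hdec : ∀ x : (∀ i, X i × Y i), ψ x = ∏ i, ψi i (x i) := by
    intro x
    conv_lhs => rw [← Finset.univ_sum_single x]
    rw [addChar_map_sum]
    rfl
  have hex : ∃ i, ψi i ≠ 1 := by
    by_contra hcon
    push Not at hcon
    apply hψ
    ext x
    rw [hdec x]
    simp [hcon]
  obtain ⟨i0, hi0⟩ := hex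
  have hsum : ∑ z ∈ bset X Y, ψ z = ∏ i, ∑ a ∈ cross (X i) (Y i), ψi i a := by
    rw [Finset.prod_univ_sum]
    exact Finset.sum_congr rfl fun x _ => hdec x
  rw [hsum, norm_prod, bset, Fintype.card_piFinset]
  push_cast
  rw [← Finset.mul_prod_erase Finset.univ _ (Finset.mem_univ i0),
    ← Finset.mul_prod_erase Finset.univ (fun i => ((cross (X i) (Y i)).card : ℝ)) (Finset.mem_univ i0),
    ← mul_assoc]
  refine mul_le_mul (sum_cross_char hi0 (hX _) (hY _) (hXY _) (hYX _)) ?_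
    (Finset.prod_nonneg fun i _ => norm_nonneg _) (by positivity)
  refine Finset.prod_le_prod (fun i _ => norm_nonneg _) fun i _ => sum_cross_char_le _

end PiChar



theorem sum_ne_zero_ind {H : Type*} [Fintype H] [AddCommGroup H] [DecidableEq H] :
    ∑ y : H, (if y = 0 then (0:ℝ) else 1) = (Fintype.card H : ℝ) - 1 := by
  have : ∀ y : H, (if y = 0 then (0:ℝ) else 1) = 1 - (if y = 0 then 1 else 0) := by
    intro y; split_ifs <;> norm_num
  rw [Finset.sum_congr rfl fun y _ => this y, Finset.sum_sub_distrib]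
  simp

theorem sum_stepLaw' {G : Type*} [Fintype G] [AddCommGroup G] [DecidableEq G] (f : G → ℝ) (t : ℕ) :
    ∑ x, stepLaw f t x = (∑ x, f x) ^ t := by
  induction t with
  | zero => simp [stepLaw_zero]
  | succ t ih => simp only [stepLaw_succ]; rw [sum_conv, ih, pow_succ, mul_comm]

section TwoPart

variable {A H : Type*} [Fintype A] [AddCommGroup A] [DecidableEq A]
  [Fintype H] [AddCommGroup H] [DecidableEq H]

/-- The symmetric generating set built from a set `B` in `H`. -/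
def ss (A : Type*) {H : Type*} [Fintype A] [AddCommGroup A] [DecidableEq A]
    [Fintype H] [AddCommGroup H] [DecidableEq H] (B : Finset H) : Finset (A × H) :=
  Finset.univ.filter fun z => (z.1 ≠ 0 ∧ z.2 ∈ B) ∨ (z.1 = 0 ∧ z.2 ≠ 0)

theorem indicator_ss {M : Type*} [NonAssocSemiring M] (B : Finset H) (z : A × H) :
    (if z ∈ ss A B then (1:M) else 0) =
      (if z.1 = 0 then 0 else 1) * (if z.2 ∈ B then 1 else 0) +
        (if z.1 = 0 then 1 else 0) * (if z.2 = 0 then 0 else 1) := by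
  by_cases h1 : z.1 = 0 <;> by_cases h2 : z.2 ∈ B <;> by_cases h3 : z.2 = 0 <;>
    simp [ss, h1, h2, h3]

theorem card_ss (B : Finset H) : ((ss A B).card : ℝ) =
    ((Fintype.card A : ℝ) - 1) * (B.card : ℝ) + ((Fintype.card H : ℝ) - 1) := by
  have h : ((ss A B).card : ℝ) = ∑ z : A × H, (if z ∈ ss A B then (1:ℝ) else 0) := by
    simp
  rw [h, Finset.sum_congr rfl fun z _ => indicator_ss (M := ℝ) B z, Finset.sum_add_distrib,
    sum_prod_type (fun y : A => if y = 0 then (0:ℝ) else 1) (fun x => if x ∈ B then (1:ℝ) else 0),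
    sum_prod_type (fun y : A => if y = 0 then (1:ℝ) else 0) (fun x => if x = 0 then (0:ℝ) else 1)]
  rw [sum_ne_zero_ind, sum_ne_zero_ind]
  simp

/-- The uniform law on a finite set. -/
noncomputable def unif {G : Type*} [DecidableEq G] (S : Finset G) (x : G) : ℝ :=
  if x ∈ S then 1 / (S.card : ℝ) else 0

theorem unif_nonneg {G : Type*} [DecidableEq G] (S : Finset G) (x : G) : 0 ≤ unif S x := by
  unfold unif
  split_ifs <;> positivity

theorem sum_unif {G : Type*} [Fintype G] [DecidableEq G] (S : Finset G) (hS : S.Nonempty) :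
    ∑ x, unif S x = 1 := by
  unfold unif
  have : (S.card : ℝ) ≠ 0 := by
    have := Finset.card_pos.2 hS
    positivity
  simp [this]

theorem unif_eq {G : Type*} [DecidableEq G] (S : Finset G) (x : G) :
    unif S x = (1 / (S.card : ℝ)) * (if x ∈ S then 1 else 0) := by
  unfold unif
  split_ifs <;> simp

/-- minorisation of the three-step law -/
theorem three_step (B : Finset H) (z : A × H) :
    3 * (((Fintype.card A : ℝ) - 2) * ((B.card : ℝ) ^ 2 - B.card)) / ((ss A B).card : ℝ) ^ 3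
      ≤ stepLaw (unif (ss A B)) 3 z := by
  classical
  set N : ℝ := ((ss A B).card : ℝ) with hN
  set f1 : A → ℝ := fun y => if y = 0 then 0 else 1 with hf1
  set f2 : A → ℝ := fun y => if y = 0 then 1 else 0 with hf2
  set h1 : H → ℝ := fun x => if x ∈ B then 1 else 0 with hh1
  set h2 : H → ℝ := fun x => if x = 0 then 0 else 1 with hh2
  set F : A × H → ℝ := fun z => f1 z.1 * h1 z.2 with hF
  set D : A × H → ℝ := fun z => f2 z.1 * h2 z.2 with hD
  have hf1' : ∀ y, 0 ≤ f1 y := by intro y; simp only [hf1]; split_ifs <;> norm_num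
  have hf2' : ∀ y, 0 ≤ f2 y := by intro y; simp only [hf2]; split_ifs <;> norm_num
  have hh1' : ∀ y, 0 ≤ h1 y := by intro y; simp only [hh1]; split_ifs <;> norm_num
  have hh2' : ∀ y, 0 ≤ h2 y := by intro y; simp only [hh2]; split_ifs <;> norm_num
  have hF' : ∀ z, 0 ≤ F z := fun z => mul_nonneg (hf1' _) (hh1' _)
  have hD' : ∀ z, 0 ≤ D z := fun z => mul_nonneg (hf2' _) (hh2' _)
  have hmu : unif (ss A B) = fun z => (1 / N) * (F z + D z) := by
    funext z
    rw [unif_eq, indicator_ss]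
  have hmul : ∀ (c : ℝ) (f g : A × H → ℝ), conv (fun x => c * f x) (fun x => c * g x) =
      fun x => c ^ 2 * conv f g x := by
    intro c f g
    rw [conv_smul_left, conv_smul_right]
    funext x
    ring
  have h3 : stepLaw (unif (ss A B)) 3 = fun z => (1 / N) ^ 3 *
      conv (fun z => F z + D z) (conv (fun z => F z + D z) (fun z => F z + D z)) z := by
    rw [hmu, stepLaw_smul]
    funext z
    congr 1
    have : stepLaw (fun z => F z + D z) 3 = conv (fun z => F z + D z) (conv (fun z => F z + D z)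
      (stepLaw (fun z => F z + D z) 1)) := rfl
    rw [this, stepLaw_one]
  have hN3 : 0 ≤ (1 / N) ^ 3 := by positivity
  -- expansion
  have hexp : ∀ z, 3 * conv F (conv F D) z ≤
      conv (fun z => F z + D z) (conv (fun z => F z + D z) (fun z => F z + D z)) z := by
    intro z
    have hadd : ∀ (f g h : A × H → ℝ), conv (fun x => f x + g x) h = fun x => conv f h x + conv g h x := by
      intro f g h
      rw [conv_comm, conv_add_right, conv_comm h f, conv_comm h g]
    rw [hadd F D (fun z => F z + D z), conv_add_right F F D, conv_add_right D F D]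
    rw [conv_comm D F]
    have e1 : (fun x => conv F F x + conv F D x + (conv F D x + conv D D x)) =
        fun x => (conv F F x) + (2 * conv F D x + conv D D x) := by
      funext x; ring
    rw [e1, hadd F D, conv_add_right F, conv_add_right D, conv_add_right F (fun x => 2 * conv F D x),
      conv_smul_right, conv_add_right D (fun x => 2 * conv F D x), conv_smul_right]
    have e2 : conv D (conv F F) = conv F (conv F D) := by
      rw [conv_comm D, conv_assoc]
    rw [e2]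
    have n1 : 0 ≤ conv F (conv F F) z := conv_nonneg hF' (conv_nonneg hF' hF') z
    have n2 : 0 ≤ conv F (conv D D) z := conv_nonneg hF' (conv_nonneg hD' hD') z
    have n3 : 0 ≤ conv D (conv F D) z := conv_nonneg hD' (conv_nonneg hF' hD') z
    have n4 : 0 ≤ conv D (conv D D) z := conv_nonneg hD' (conv_nonneg hD' hD') z
    linarith
  -- evaluation
  have hFD : conv F (conv F D) = fun z => conv f1 (conv f1 f2) z.1 * conv h1 (conv h1 h2) z.2 := by
    rw [hF, hD, conv_prod, conv_prod]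
  have hf1f2 : conv f1 f2 = f1 := by
    rw [conv_comm]; exact conv_delta_left f1
  have hf11 : ∀ y, (Fintype.card A : ℝ) - 2 ≤ conv f1 f1 y := by
    intro y
    have e : f1 = fun y => (1:ℝ) - f2 y := by
      funext y; simp only [hf1, hf2]; split_ifs <;> norm_num
    rw [e, conv_sub_left, conv_sub_right, conv_sub_right, conv_const_left, conv_const_left, conv_const_right]
    have e2 : conv f2 f2 = f2 := conv_delta_left f2
    rw [e2]
    have e3 : ∑ x, f2 x = 1 := by simp [hf2]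
    rw [e3]
    simp only [Finset.sum_const, Finset.card_univ, nsmul_eq_mul, mul_one]
    linarith [hf2' y]
  have hsh1 : ∑ x, h1 x = (B.card : ℝ) := by simp [hh1]
  have hh12 : conv h1 h2 = fun x => (B.card : ℝ) - h1 x := by
    have e : h2 = fun y => (1:ℝ) - (if y = 0 then 1 else 0) := by
      funext y; simp only [hh2]; split_ifs <;> norm_num
    rw [e, conv_sub_right, conv_const_right, hsh1, conv_comm h1, conv_delta_left]
    funext x; ring
  have hh11 : ∀ x, conv h1 h1 x ≤ (B.card : ℝ) := by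
    intro x
    rw [← hsh1]
    unfold conv
    refine Finset.sum_le_sum fun y _ => ?_
    have : h1 (x - y) ≤ 1 := by simp only [hh1]; split_ifs <;> norm_num
    nlinarith [hh1' y]
  have hh112 : ∀ x, (B.card : ℝ) ^ 2 - B.card ≤ conv h1 (conv h1 h2) x := by
    intro x
    rw [hh12, conv_sub_right, conv_const_right, hsh1]
    simp only
    nlinarith [hh11 x]
  rw [h3]
  simp only
  have h4 : ((Fintype.card A : ℝ) - 2) * ((B.card : ℝ) ^ 2 - B.card) ≤ conv F (conv F D) z := by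
    rw [hFD, hf1f2]
    simp only
    have hb : (0:ℝ) ≤ (B.card : ℝ) ^ 2 - B.card := by
      rcases Nat.eq_zero_or_pos B.card with h | h
      · rw [h]; norm_num
      · have : (1:ℝ) ≤ B.card := by exact_mod_cast h
        nlinarith
    exact mul_le_mul (hf11 _) (hh112 _) hb (conv_nonneg hf1' hf1' _)
  have h5 := (mul_le_mul_of_nonneg_left h4 (by norm_num : (0:ℝ) ≤ 3)).trans (hexp z)
  calc 3 * (((Fintype.card A : ℝ) - 2) * ((B.card : ℝ) ^ 2 - B.card)) / N ^ 3
      = (1 / N) ^ 3 * (3 * (((Fintype.card A : ℝ) - 2) * ((B.card : ℝ) ^ 2 - B.card))) := by ring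
    _ ≤ _ := mul_le_mul_of_nonneg_left h5 hN3

/-- Minorisation in normalised form. -/
theorem minor (B : Finset H) (hq : 31 ≤ Fintype.card A) (hb : 900 ≤ B.card) (hm : 2 ≤ Fintype.card H)
    (hg : 31 * ((Fintype.card H : ℝ) - 1) ≤ ((ss A B).card : ℝ)) (z : A × H) :
    (2.7 * (((Fintype.card H : ℝ) - 1) / ((ss A B).card : ℝ))) / (Fintype.card (A × H) : ℝ) ≤
      stepLaw (unif (ss A B)) 3 z := by
  refine le_trans ?_ (three_step B z)
  have hNe := card_ss (A := A) B
  set N : ℝ := ((ss A B).card : ℝ) with hN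
  set q : ℝ := (Fintype.card A : ℝ) with hqd
  set b : ℝ := (B.card : ℝ) with hbd
  set m : ℝ := (Fintype.card H : ℝ) with hmd
  have hcard : (Fintype.card (A × H) : ℝ) = q * m := by
    rw [Fintype.card_prod]; push_cast; rfl
  rw [hcard]
  have hq' : (31:ℝ) ≤ q := by rw [hqd]; exact_mod_cast hq
  have hb' : (900:ℝ) ≤ b := by rw [hbd]; exact_mod_cast hb
  have hm' : (2:ℝ) ≤ m := by rw [hmd]; exact_mod_cast hm
  have hNpos : 0 < N := by nlinarith
  have hNle : N ≤ (31/30) * ((q - 1) * b) := by nlinarith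
  have hN2 : N ^ 2 ≤ (961/900) * ((q - 1) * b) ^ 2 := by
    have h0 : 0 ≤ (q-1) * b := by nlinarith
    nlinarith [mul_le_mul hNle hNle hNpos.le (by positivity)]
  have hx : (0:ℝ) ≤ (q - 2) * (b ^ 2 - b) * q := by
    have h1 : 0 ≤ q - 2 := by linarith
    have h2 : 0 ≤ b ^ 2 - b := by nlinarith
    positivity
  have key : 2.7 * N ^ 2 ≤ 3 * ((q - 2) * (b ^ 2 - b) * q) := by
    have hA : (899/900) * (q - 1) ^ 2 ≤ (q - 2) * q := by nlinarith
    have hB : (899/900) * b ^ 2 ≤ b ^ 2 - b := by nlinarith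
    have hA0 : (0:ℝ) ≤ (899/900) * (q - 1) ^ 2 := by positivity
    have hB0 : (0:ℝ) ≤ (899/900) * b ^ 2 := by positivity
    have hAB := mul_le_mul hA hB hB0 (hA0.trans hA)
    nlinarith [hAB, hN2, sq_nonneg ((q-1)*b)]
  have e1 : 2.7 * ((m - 1) / N) / (q * m) = (2.7 * (m - 1)) / (N * (q * m)) := by
    field_simp
  rw [e1, div_le_div_iff₀ (by positivity) (by positivity)]
  have hq0 : 0 < q := by linarith
  have hm0 : 0 < m := by linarith
  calc 2.7 * (m - 1) * N ^ 3 = (2.7 * N ^ 2) * ((m - 1) * N) := by ring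
    _ ≤ (3 * ((q - 2) * (b ^ 2 - b) * q)) * ((m - 1) * N) :=
        mul_le_mul_of_nonneg_right key (mul_nonneg (by linarith) hNpos.le)
    _ ≤ (3 * ((q - 2) * (b ^ 2 - b) * q)) * (m * N) := by
        refine mul_le_mul_of_nonneg_left ?_ (by linarith)
        exact mul_le_mul_of_nonneg_right (by linarith) hNpos.le
    _ = 3 * ((q - 2) * (b ^ 2 - b)) * (N * (q * m)) := by ring

theorem char_ss (B : Finset H)
    (hB : ∀ ψ : AddChar H ℂ, ψ ≠ 1 → ‖∑ x ∈ B, ψ x‖ ≤ (2/3) * (B.card : ℝ))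
    (hq : 31 ≤ Fintype.card A)
    (hg : 31 * ((Fintype.card H : ℝ) - 1) ≤ ((ss A B).card : ℝ))
    {ψ : AddChar (A × H) ℂ} (hψ : ψ ≠ 1) :
    ‖∑ z ∈ ss A B, ψ z‖ ≤ (3/4) * ((ss A B).card : ℝ) := by
  classical
  set ψA : AddChar A ℂ := ψ.compAddMonoidHom (AddMonoidHom.inl A H) with hψA
  set ψH : AddChar H ℂ := ψ.compAddMonoidHom (AddMonoidHom.inr A H) with hψH
  have hdec : ∀ z : A × H, ψ z = ψA z.1 * ψH z.2 := by
    intro z
    have hz : z = (z.1, 0) + (0, z.2) := by simp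
    conv_lhs => rw [hz]
    rw [AddChar.map_add_eq_mul]
    simp [hψA, hψH]
  have hprod : ∀ (f : A → ℂ) (h : H → ℂ), ∑ z : A × H, f z.1 * h z.2 = (∑ a, f a) * ∑ b, h b := by
    intro f h
    rw [Fintype.sum_prod_type, Finset.sum_mul_sum]
  have hsum : ∑ z ∈ ss A B, ψ z =
      (∑ y : A, (if y = 0 then 0 else 1) * ψA y) * (∑ x : H, (if x ∈ B then 1 else 0) * ψH x) +
      (∑ y : A, (if y = 0 then 1 else 0) * ψA y) * (∑ x : H, (if x = 0 then 0 else 1) * ψH x) := by
    rw [← hprod, ← hprod, ← Finset.sum_add_distrib]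
    have : ∑ z ∈ ss A B, ψ z = ∑ z : A × H, (if z ∈ ss A B then (1:ℂ) else 0) * ψ z := by
      simp [Finset.sum_ite_mem]
    rw [this]
    refine Finset.sum_congr rfl fun z _ => ?_
    rw [indicator_ss (M := ℂ), hdec z]
    ring
  have hne' : ∑ y : A, (if y = 0 then (0:ℂ) else 1) * ψA y = (∑ y, ψA y) - 1 := by
    have : ∀ y : A, (if y = 0 then (0:ℂ) else 1) * ψA y = ψA y - (if y = 0 then ψA y else 0) := by
      intro y; split_ifs <;> ring
    rw [Finset.sum_congr rfl fun y _ => this y, Finset.sum_sub_distrib]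
    simp
  have h1 : ∑ y : A, (if y = 0 then (1:ℂ) else 0) * ψA y = 1 := by simp
  have h2 : ∑ x : H, (if x ∈ B then (1:ℂ) else 0) * ψH x = ∑ x ∈ B, ψH x := by
    simp [Finset.sum_ite_mem]
  have h3 : ‖∑ x : H, (if x = 0 then (0:ℂ) else 1) * ψH x‖ ≤ (Fintype.card H : ℝ) - 1 := by
    refine (norm_sum_le _ _).trans ?_
    rw [← sum_ne_zero_ind]
    refine Finset.sum_le_sum fun x _ => ?_
    rw [norm_mul]
    split_ifs <;> simp
  have hNe := card_ss (A := A) B
  rw [hsum, hne', h1, h2, one_mul]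
  refine (norm_add_le _ _).trans ?_
  rw [norm_mul]
  set N : ℝ := ((ss A B).card : ℝ) with hN
  set q : ℝ := (Fintype.card A : ℝ) with hqd
  set b : ℝ := (B.card : ℝ) with hbd
  set m : ℝ := (Fintype.card H : ℝ) with hmd
  have hq' : (31:ℝ) ≤ q := by rw [hqd]; exact_mod_cast hq
  have hb0 : 0 ≤ b := by rw [hbd]; positivity
  have hm1 : 1 ≤ m := by
    rw [hmd]
    have : 1 ≤ Fintype.card H := Fintype.card_pos
    exact_mod_cast this
  by_cases hA : ψA = 1
  · have hH : ψH ≠ 1 := by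
      intro hH
      apply hψ
      ext z
      rw [hdec z, hA, hH]
      simp
    have h4 := hB ψH hH
    have h5 : ‖∑ y, ψA y - 1‖ = q - 1 := by
      rw [hA]
      simp only [AddChar.one_apply, Finset.sum_const, Finset.card_univ, nsmul_eq_mul, mul_one]
      have : ((Fintype.card A : ℂ) - 1) = (((Fintype.card A : ℝ) - 1 : ℝ) : ℂ) := by push_cast; ring
      rw [this, Complex.norm_real, Real.norm_eq_abs, abs_of_nonneg (by linarith)]
    rw [h5]
    have h6 : (q - 1) * ‖∑ x ∈ B, ψH x‖ ≤ (q - 1) * ((2/3) * b) :=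
      mul_le_mul_of_nonneg_left h4 (by linarith)
    nlinarith
  · have h4 : ‖∑ x ∈ B, ψH x‖ ≤ b := by
      refine (norm_sum_le _ _).trans ?_
      simp [hbd]
    have h5 : ‖∑ y, ψA y - 1‖ = 1 := by
      rw [AddChar.sum_eq_zero_of_ne_one hA]
      simp
    rw [h5, one_mul]
    nlinarith

end TwoPart



/-- mass off the axis `w.1 = 0` -/
theorem cross_mass {X Y : Type*} [Fintype X] [Fintype Y] [AddCommGroup X] [AddCommGroup Y]
    [DecidableEq X] [DecidableEq Y] (hXY : Fintype.card X ≤ Fintype.card Y + 1) (t : ℕ) :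
    ∑ w : X × Y, (if w.1 = 0 then (0:ℝ) else 1) *
      stepLaw (fun w : X × Y => if w ∈ cross X Y then (1:ℝ) else 0) t w ≤
      ((cross X Y).card : ℝ) ^ t * (1 - (1/2) ^ t) := by
  set u : X × Y → ℝ := fun w => if w ∈ cross X Y then (1:ℝ) else 0 with hu
  set v : X × Y → ℝ := fun w => (if w.1 = 0 then (1:ℝ) else 0) * 1 with hv
  have hv0 : ∀ w, 0 ≤ v w := by intro w; simp only [hv]; split_ifs <;> norm_num
  have hvu : ∀ w, v w ≤ u w := by
    intro w
    simp only [hv, hu, cross, Finset.mem_filter, Finset.mem_univ, true_and, mul_one]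
    by_cases h1 : w.1 = 0 <;> by_cases h2 : w.2 = 0 <;> simp [h1, h2]
  have hdel : ∀ t, stepLaw (fun x : X => if x = 0 then (1:ℝ) else 0) t =
      fun x => if x = 0 then (1:ℝ) else 0 := by
    intro t
    induction t with
    | zero => rfl
    | succ t ih => simp only [stepLaw_succ]; rw [ih]; exact conv_delta_left _
  have hvt : stepLaw v t = fun w => (if w.1 = 0 then (1:ℝ) else 0) * stepLaw (fun _ : Y => (1:ℝ)) t w.2 := by
    rw [hv, stepLaw_prod (fun x : X => if x = 0 then (1:ℝ) else 0) (fun _ : Y => (1:ℝ)) t, hdel]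
  have hsum : ∑ w, stepLaw u t w = ((cross X Y).card : ℝ) ^ t := by
    rw [sum_stepLaw']
    congr 1
    simp [hu]
  have hT : (Fintype.card Y : ℝ) ^ t ≤ ∑ w : X × Y, (if w.1 = 0 then (1:ℝ) else 0) * stepLaw u t w := by
    have h1 : ∑ w : X × Y, (if w.1 = 0 then (1:ℝ) else 0) * stepLaw v t w = (Fintype.card Y : ℝ) ^ t := by
      rw [hvt]
      have h2 : ∀ w : X × Y, (if w.1 = 0 then (1:ℝ) else 0) *
          ((if w.1 = 0 then (1:ℝ) else 0) * stepLaw (fun _ : Y => (1:ℝ)) t w.2) =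
          (if w.1 = 0 then (1:ℝ) else 0) * stepLaw (fun _ : Y => (1:ℝ)) t w.2 := by
        intro w; split_ifs <;> simp
      rw [Finset.sum_congr rfl fun w _ => h2 w,
        sum_prod_type (fun x : X => if x = 0 then (1:ℝ) else 0) (stepLaw (fun _ : Y => (1:ℝ)) t),
        sum_stepLaw']
      simp
    rw [← h1]
    refine Finset.sum_le_sum fun w _ => ?_
    refine mul_le_mul_of_nonneg_left (stepLaw_mono hv0 hvu t w) ?_
    split_ifs <;> norm_num
  have hsplit : ∑ w : X × Y, (if w.1 = 0 then (0:ℝ) else 1) * stepLaw u t w =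
      ((cross X Y).card : ℝ) ^ t - ∑ w : X × Y, (if w.1 = 0 then (1:ℝ) else 0) * stepLaw u t w := by
    rw [← hsum, ← Finset.sum_sub_distrib]
    refine Finset.sum_congr rfl fun w _ => ?_
    split_ifs <;> ring
  rw [hsplit]
  have hcc := card_cross (X := X) (Y := Y)
  have hXY' : (Fintype.card X : ℝ) ≤ Fintype.card Y + 1 := by exact_mod_cast hXY
  have hc0 : (0:ℝ) ≤ (cross X Y).card := by positivity
  have h4 : ((cross X Y).card : ℝ) ^ t * (1/2) ^ t ≤ (Fintype.card Y : ℝ) ^ t := by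
    rw [← mul_pow]
    refine pow_le_pow_left₀ (by positivity) ?_ t
    rw [hcc]; linarith
  have e : ((cross X Y).card : ℝ) ^ t * (1 - (1/2) ^ t) =
      ((cross X Y).card : ℝ) ^ t - ((cross X Y).card : ℝ) ^ t * (1/2) ^ t := by ring
  rw [e]
  linarith

section PiPart

variable {A : Type*} [Fintype A] [AddCommGroup A] [DecidableEq A]
variable {ι : Type*} [Fintype ι] [DecidableEq ι] {X Y : ι → Type*} [∀ i, Fintype (X i)]
  [∀ i, Fintype (Y i)] [∀ i, AddCommGroup (X i)] [∀ i, AddCommGroup (Y i)]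
  [∀ i, DecidableEq (X i)] [∀ i, DecidableEq (Y i)]

theorem card_pi_prod : (Fintype.card (∀ i, X i × Y i) : ℝ) =
    ∏ i, ((Fintype.card (X i) : ℝ) * (Fintype.card (Y i) : ℝ)) := by
  rw [Fintype.card_pi]
  push_cast
  exact Finset.prod_congr rfl fun i _ => by rw [Fintype.card_prod]; push_cast; ring

theorem tv_lower_main (hXY : ∀ i, Fintype.card (X i) ≤ Fintype.card (Y i) + 1)
    (P : ℝ) (hP : 1 ≤ P) (hPX : ∀ i, P ≤ (Fintype.card (X i) : ℝ))
    (hne : (ss A (bset X Y)).Nonempty) (hA : 1 ≤ Fintype.card A) (t : ℕ) :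
    ((((Fintype.card A : ℝ) - 1) * ((bset X Y).card : ℝ)) / ((ss A (bset X Y)).card : ℝ)) ^ t *
      (1 - (1 - (1/2) ^ t) ^ (Fintype.card ι)) - (1 - (1 - 1/P) ^ (Fintype.card ι)) ≤
    tvUnif (stepLaw (unif (ss A (bset X Y))) t) := by
  classical
  set N : ℝ := ((ss A (bset X Y)).card : ℝ) with hN
  have hN0 : 0 < N := by
    rw [hN]
    have := Finset.card_pos.2 hne
    exact_mod_cast this
  have hA' : (1:ℝ) ≤ Fintype.card A := by exact_mod_cast hA
  set E : Finset (A × (∀ i, X i × Y i)) := Finset.univ.filter fun z => ∃ i, (z.2 i).1 = 0 with hE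
  set f1 : A → ℝ := fun y => if y = 0 then 0 else 1 with hf1
  set cc : ∀ i, X i × Y i → ℝ := fun i w => if w ∈ cross (X i) (Y i) then (1:ℝ) else 0 with hcc
  set ww : ∀ i, X i × Y i → ℝ := fun i w => if w.1 = 0 then (0:ℝ) else 1 with hww
  set F : A × (∀ i, X i × Y i) → ℝ := fun z => f1 z.1 * ∏ i, cc i (z.2 i) with hF
  have hf1' : ∀ y, 0 ≤ f1 y := by intro y; simp only [hf1]; split_ifs <;> norm_num
  have hcc' : ∀ i w, 0 ≤ cc i w := by intro i w; simp only [hcc]; split_ifs <;> norm_num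
  have hww' : ∀ i w, 0 ≤ ww i w := by intro i w; simp only [hww]; split_ifs <;> norm_num
  have hF' : ∀ z, 0 ≤ F z := fun z => mul_nonneg (hf1' _) (Finset.prod_nonneg fun i _ => hcc' i _)
  have hindE : ∀ z : A × (∀ i, X i × Y i), (if z ∈ E then (1:ℝ) else 0) = 1 - ∏ i, ww i (z.2 i) := by
    intro z
    by_cases h : ∃ i, (z.2 i).1 = 0
    · obtain ⟨i, hi⟩ := h
      have hz : z ∈ E := by simp only [hE, Finset.mem_filter, Finset.mem_univ, true_and]; exact ⟨i, hi⟩
      have : ∏ i, ww i (z.2 i) = 0 := Finset.prod_eq_zero (Finset.mem_univ i) (by simp [hww, hi])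
      rw [this]; simp [hz]
    · have hz : z ∉ E := by simp only [hE, Finset.mem_filter, Finset.mem_univ, true_and]; exact h
      push Not at h
      have : ∏ i, ww i (z.2 i) = 1 := Finset.prod_eq_one fun i _ => by simp [hww, h i]
      rw [this]; simp [hz]
  have hsumE : ∀ f : A × (∀ i, X i × Y i) → ℝ, ∑ z ∈ E, f z =
      ∑ z, f z - ∑ z, (∏ i, ww i (z.2 i)) * f z := by
    intro f
    rw [← Finset.sum_sub_distrib]
    have : ∑ z ∈ E, f z = ∑ z, (if z ∈ E then (1:ℝ) else 0) * f z := by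
      simp [Finset.sum_ite_mem]
    rw [this]
    refine Finset.sum_congr rfl fun z _ => ?_
    rw [hindE z]; ring
  -- step law of F
  have hFt : stepLaw F t = fun z => stepLaw f1 t z.1 * ∏ i, stepLaw (cc i) t (z.2 i) := by
    rw [hF, stepLaw_prod f1 (fun x : (∀ i, X i × Y i) => ∏ i, cc i (x i)) t, stepLaw_pi]
  have hsF : ∑ z, stepLaw F t z = (((Fintype.card A : ℝ) - 1) * ((bset X Y).card : ℝ)) ^ t := by
    rw [sum_stepLaw']
    congr 1
    rw [hF, sum_prod_type f1 (fun x : (∀ i, X i × Y i) => ∏ i, cc i (x i)), sum_pi, hf1, sum_ne_zero_ind]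
    congr 1
    rw [bset, Fintype.card_piFinset]
    push_cast
    refine Finset.prod_congr rfl fun i _ => ?_
    simp [hcc]
  have hsFE : ∑ z : A × (∀ i, X i × Y i), (∏ i, ww i (z.2 i)) * stepLaw F t z ≤
      (((Fintype.card A : ℝ) - 1) * ((bset X Y).card : ℝ)) ^ t * (1 - (1/2) ^ t) ^ (Fintype.card ι) := by
    have e1 : ∑ z : A × (∀ i, X i × Y i), (∏ i, ww i (z.2 i)) * stepLaw F t z =
        (∑ y, stepLaw f1 t y) * ∏ i, ∑ a, ww i a * stepLaw (cc i) t a := by
      rw [← sum_pi (fun i a => ww i a * stepLaw (cc i) t a),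
        ← sum_prod_type (stepLaw f1 t) (fun x : (∀ i, X i × Y i) => ∏ i, (ww i (x i) * stepLaw (cc i) t (x i))), hFt]
      refine Finset.sum_congr rfl fun z _ => ?_
      rw [Finset.prod_mul_distrib]
      ring
    rw [e1, sum_stepLaw', hf1, sum_ne_zero_ind, mul_pow, mul_assoc]
    refine mul_le_mul_of_nonneg_left ?_ (pow_nonneg (by linarith) _)
    have e2 : ((bset X Y).card : ℝ) ^ t * (1 - (1/2) ^ t) ^ (Fintype.card ι) =
        ∏ i : ι, (((cross (X i) (Y i)).card : ℝ) ^ t * (1 - (1/2) ^ t)) := by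
      rw [Finset.prod_mul_distrib, Finset.prod_const, Finset.card_univ, bset, Fintype.card_piFinset]
      push_cast
      rw [Finset.prod_pow]
    rw [e2]
    refine Finset.prod_le_prod (fun i _ => ?_) (fun i _ => ?_)
    · exact Finset.sum_nonneg fun w _ => mul_nonneg (hww' i w) (stepLaw_nonneg (hcc' i) t w)
    · exact cross_mass (hXY i) t
  have hlow1 : (((Fintype.card A : ℝ) - 1) * ((bset X Y).card : ℝ)) ^ t *
      (1 - (1 - (1/2) ^ t) ^ (Fintype.card ι)) ≤ ∑ z ∈ E, stepLaw F t z := by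
    rw [hsumE, hsF]
    have : (((Fintype.card A : ℝ) - 1) * ((bset X Y).card : ℝ)) ^ t *
      (1 - (1 - (1/2) ^ t) ^ (Fintype.card ι)) = (((Fintype.card A : ℝ) - 1) * ((bset X Y).card : ℝ)) ^ t -
      (((Fintype.card A : ℝ) - 1) * ((bset X Y).card : ℝ)) ^ t * (1 - (1/2) ^ t) ^ (Fintype.card ι) := by ring
    rw [this]
    linarith
  -- comparison
  have hindB : ∀ x : (∀ i, X i × Y i), (if x ∈ bset X Y then (1:ℝ) else 0) = ∏ i, cc i (x i) := by
    intro x
    by_cases h : x ∈ bset X Y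
    · have : ∏ i, cc i (x i) = 1 := by
        refine Finset.prod_eq_one fun i _ => ?_
        rw [bset, Fintype.mem_piFinset] at h
        simp [hcc, h i]
      rw [this]; simp [h]
    · have h' := h
      rw [bset, Fintype.mem_piFinset] at h'
      push Not at h'
      obtain ⟨i, hi⟩ := h'
      have : ∏ i, cc i (x i) = 0 := Finset.prod_eq_zero (Finset.mem_univ i) (by simp [hcc, hi])
      rw [this]; simp [h]
  have hcomp : ∀ z, (1 / N) * F z ≤ unif (ss A (bset X Y)) z := by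
    intro z
    rw [unif_eq, indicator_ss]
    refine mul_le_mul_of_nonneg_left ?_ (by positivity)
    rw [hindB]
    have : 0 ≤ (if z.1 = 0 then (1:ℝ) else 0) * (if z.2 = 0 then (0:ℝ) else 1) := by
      split_ifs <;> norm_num
    linarith
  have hstep : ∀ z, (1 / N) ^ t * stepLaw F t z ≤ stepLaw (unif (ss A (bset X Y))) t z := by
    intro z
    have := stepLaw_mono (fun z => mul_nonneg (by positivity) (hF' z)) hcomp t z
    rw [stepLaw_smul] at this
    exact this
  have hlow2 : ((((Fintype.card A : ℝ) - 1) * ((bset X Y).card : ℝ)) / N) ^ t *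
      (1 - (1 - (1/2) ^ t) ^ (Fintype.card ι)) ≤ ∑ z ∈ E, stepLaw (unif (ss A (bset X Y))) t z := by
    calc ((((Fintype.card A : ℝ) - 1) * ((bset X Y).card : ℝ)) / N) ^ t *
      (1 - (1 - (1/2) ^ t) ^ (Fintype.card ι)) = (1 / N) ^ t * ((((Fintype.card A : ℝ) - 1) * ((bset X Y).card : ℝ)) ^ t *
      (1 - (1 - (1/2) ^ t) ^ (Fintype.card ι))) := by
          rw [div_pow, one_div, inv_pow]; ring
      _ ≤ (1 / N) ^ t * ∑ z ∈ E, stepLaw F t z := mul_le_mul_of_nonneg_left hlow1 (by positivity)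
      _ = ∑ z ∈ E, (1 / N) ^ t * stepLaw F t z := by rw [Finset.mul_sum]
      _ ≤ _ := Finset.sum_le_sum fun z _ => hstep z
  -- uniform measure of E
  have hcardE : (E.card : ℝ) / (Fintype.card (A × (∀ i, X i × Y i)) : ℝ) ≤ 1 - (1 - 1/P) ^ (Fintype.card ι) := by
    have hGpos : (0:ℝ) < (Fintype.card (A × (∀ i, X i × Y i)) : ℝ) := card_pos'
    rw [div_le_iff₀ hGpos]
    have e1 : (E.card : ℝ) = ∑ z ∈ E, (1:ℝ) := by simp
    rw [e1, hsumE]
    have e2 : ∑ z : A × (∀ i, X i × Y i), (∏ i, ww i (z.2 i)) * (1:ℝ) =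
        (Fintype.card A : ℝ) * ∏ i, (((Fintype.card (X i) : ℝ) - 1) * (Fintype.card (Y i) : ℝ)) := by
      have e3 : ∀ i, ∑ a : X i × Y i, ww i a = ((Fintype.card (X i) : ℝ) - 1) * (Fintype.card (Y i) : ℝ) := by
        intro i
        have := sum_prod_type (fun x : X i => if x = 0 then (0:ℝ) else 1) (fun _ : Y i => (1:ℝ))
        rw [sum_ne_zero_ind] at this
        simpa [hww] using this
      have := sum_prod_type (fun _ : A => (1:ℝ)) (fun x : (∀ i, X i × Y i) => ∏ i, ww i (x i))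
      rw [sum_pi, Finset.prod_congr rfl fun i _ => e3 i] at this
      simp only [one_mul, Finset.sum_const, Finset.card_univ, nsmul_eq_mul, mul_one] at this
      simp only [mul_one]
      exact this
    rw [e2]
    have e4 : (Fintype.card (A × (∀ i, X i × Y i)) : ℝ) =
        (Fintype.card A : ℝ) * ∏ i, ((Fintype.card (X i) : ℝ) * (Fintype.card (Y i) : ℝ)) := by
      rw [Fintype.card_prod]; push_cast; rw [card_pi_prod]
    simp only [Finset.sum_const, Finset.card_univ, nsmul_eq_mul, mul_one]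
    rw [e4]
    have e5 : (1 - 1/P) ^ (Fintype.card ι) * ∏ i, ((Fintype.card (X i) : ℝ) * (Fintype.card (Y i) : ℝ)) ≤
        ∏ i, (((Fintype.card (X i) : ℝ) - 1) * (Fintype.card (Y i) : ℝ)) := by
      rw [← Finset.card_univ, ← Finset.prod_const, ← Finset.prod_mul_distrib]
      have hP0 : 0 ≤ 1 - 1/P := by
        have : 1/P ≤ 1 := by rw [div_le_one (by linarith)]; exact hP
        linarith
      refine Finset.prod_le_prod (fun i _ => by positivity) (fun i _ => ?_)
      rw [← mul_assoc]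
      refine mul_le_mul_of_nonneg_right ?_ (by positivity)
      have hp := hPX i
      have hPpos : 0 < P := by linarith
      have : 1 ≤ (1/P) * (Fintype.card (X i) : ℝ) := by
        rw [one_div, inv_mul_eq_div, le_div_iff₀ hPpos]; linarith
      linarith
    have e6 : (0:ℝ) ≤ Fintype.card A := by positivity
    nlinarith [mul_le_mul_of_nonneg_left e5 e6]
  have hmain := tv_lower (f := stepLaw (unif (ss A (bset X Y))) t)
    (sum_stepLaw (sum_unif _ hne) t) E
  linarith

end PiPart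

section Num


theorem pow_le_inv {c : ℝ} (hc0 : 0 ≤ c) (hc1 : c ≤ 1) (s : ℕ) : (1 - c) ^ s ≤ 1 / (1 + s * c) := by
  have h1 : 1 + (s:ℝ) * c ≤ (1 + c) ^ s := one_add_mul_le_pow (by linarith) s
  have hpos : 0 < 1 + (s:ℝ) * c := by positivity
  rw [le_div_iff₀ hpos]
  have h2 : (1 - c) ^ s * (1 + c) ^ s ≤ 1 := by
    rw [← mul_pow]
    refine pow_le_one₀ (by nlinarith) (by nlinarith)
  have h3 : 0 ≤ (1 - c) ^ s := pow_nonneg (by linarith) s
  nlinarith [mul_le_mul_of_nonneg_left h1 h3]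

variable {G : Type*} [Fintype G] [AddCommGroup G] [DecidableEq G]

theorem numerics (mu : G → ℝ) (L : ℕ) (hL : 30 ≤ L) (γ P : ℝ)
    (hγ1 : (L:ℝ) + 1 ≤ γ) (hγ2 : γ ≤ 2 * L + 2) (hP : 100 * (8:ℝ) ^ L ≤ P)
    (hU : ∀ s : ℕ, tvUnif (stepLaw mu (3 * s)) ≤ (1 - 27/10 * (1/γ)) ^ s)
    (hLw : ∀ t : ℕ, (1 - 1/γ) ^ t * (1 - (1 - (1/2) ^ t) ^ (8 ^ L)) - (1 - (1 - 1/P) ^ (8 ^ L)) ≤
      tvUnif (stepLaw mu t)) :
    0 < tmix mu (3/4) ∧ 7/10 * γ ≤ (tmix mu (1/4) : ℝ) ∧ (tmix mu (3/4) : ℝ) ≤ 1/2 * γ := by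
  have hL' : (30:ℝ) ≤ L := by exact_mod_cast hL
  have hγ : 31 ≤ γ := by linarith
  have hγ0 : 0 < γ := by linarith
  have hg1 : 1/γ ≤ 1/31 := one_div_le_one_div_of_le (by norm_num) hγ
  have hg0 : 0 < 1/γ := by positivity
  have h8 : (1:ℝ) ≤ (8:ℝ) ^ L := one_le_pow₀ (by norm_num)
  have hP0 : 0 < P := by linarith
  have hP1 : 1/P ≤ 1 := by
    rw [div_le_one hP0]; linarith
  -- uniform measure of E is small
  have hE : 1 - (1 - 1/P) ^ (8 ^ L) ≤ 1/100 := by
    have h1 := one_add_mul_le_pow (a := -(1/P)) (by linarith) (8 ^ L)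
    push_cast at h1
    have h2 : (8:ℝ) ^ L * (1/P) ≤ 1/100 := by
      rw [mul_one_div, div_le_iff₀ hP0]
      linarith
    have h3 : (1 - 1/P) = 1 + -(1/P) := by ring
    rw [h3]
    linarith
  have hlow : ∀ t : ℕ, (t:ℝ) ≤ 7/10 * γ → 1/4 < tvUnif (stepLaw mu t) := by
    intro t ht
    have h1 := one_add_mul_le_pow (a := -(1/γ)) (by linarith) t
    have h1' : (3/10:ℝ) ≤ (1 - 1/γ) ^ t := by
      have h2 : (t:ℝ) * (1/γ) ≤ 7/10 := by
        rw [mul_one_div, div_le_iff₀ hγ0]; exact ht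
      have h3 : (1 - 1/γ) = 1 + -(1/γ) := by ring
      rw [h3]
      linarith
    have htL : t ≤ 2 * L := by
      have : (t:ℝ) ≤ 2 * L := by linarith
      exact_mod_cast this
    have h4 : (1 - (1/2:ℝ) ^ t) ^ (8 ^ L) ≤ 1/100 := by
      have hx0 : (0:ℝ) ≤ (1/2:ℝ) ^ t := by positivity
      have hx1 : (1/2:ℝ) ^ t ≤ 1 := pow_le_one₀ (by norm_num) (by norm_num)
      refine (pow_le_inv hx0 hx1 (8 ^ L)).trans ?_
      refine one_div_le_one_div_of_le (by norm_num) ?_
      push_cast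
      have h5 : (1/2:ℝ) ^ (2 * L) ≤ (1/2:ℝ) ^ t := pow_le_pow_of_le_one (by norm_num) (by norm_num) htL
      have h6 : (8:ℝ) ^ L * (1/2:ℝ) ^ (2 * L) = 2 ^ L := by
        rw [pow_mul, ← mul_pow]; norm_num
      have h7 : (2:ℝ) ^ 30 ≤ 2 ^ L := pow_le_pow_right₀ (by norm_num) hL
      have h8' : (8:ℝ) ^ L * (1/2:ℝ) ^ (2 * L) ≤ (8:ℝ) ^ L * (1/2:ℝ) ^ t :=
        mul_le_mul_of_nonneg_left h5 (by positivity)
      norm_num at h7
      linarith
    have h9 := hLw t
    have h10 : (3/10:ℝ) * (99/100) ≤ (1 - 1/γ) ^ t * (1 - (1 - (1/2) ^ t) ^ (8 ^ L)) := by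
      refine mul_le_mul h1' (by linarith) (by norm_num) (by linarith)
    linarith
  have h0 : 3/4 < tvUnif (stepLaw mu 0) := by
    have h9 := hLw 0
    have : (8:ℕ) ^ L ≠ 0 := by positivity
    simp only [pow_zero, sub_self, zero_pow this, sub_zero, mul_one, one_mul] at h9
    linarith
  have hc0 : 0 ≤ 27/10 * (1/γ) := by positivity
  have hc1 : 27/10 * (1/γ) ≤ 1 := by linarith
  -- upper bound for 3/4
  set s : ℕ := ⌈γ / 8⌉₊ with hs
  have hs1 : γ / 8 ≤ s := Nat.le_ceil _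
  have hs2 : (s:ℝ) < γ / 8 + 1 := Nat.ceil_lt_add_one (by positivity)
  have hup : tvUnif (stepLaw mu (3 * s)) ≤ 3/4 := by
    refine (hU s).trans ((pow_le_inv hc0 hc1 s).trans ?_)
    have h1 : 1/3 ≤ (s:ℝ) * (27/10 * (1/γ)) := by
      have : (s:ℝ) * (27/10 * (1/γ)) = (s:ℝ) * (27/10) / γ := by ring
      rw [this, le_div_iff₀ hγ0]
      linarith
    rw [div_le_iff₀ (by linarith)]
    linarith
  have hmem : 3 * s ∈ {t : ℕ | tvUnif (stepLaw mu t) ≤ 3/4} := hup
  have hne34 : {t : ℕ | tvUnif (stepLaw mu t) ≤ 3/4}.Nonempty := ⟨_, hmem⟩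
  have hT34 : tmix mu (3/4) ≤ 3 * s := Nat.sInf_le hmem
  have hne14 : {t : ℕ | tvUnif (stepLaw mu t) ≤ 1/4}.Nonempty := by
    set s' : ℕ := ⌈2 * γ⌉₊ with hs'
    have hs1' : 2 * γ ≤ s' := Nat.le_ceil _
    refine ⟨3 * s', ?_⟩
    show tvUnif (stepLaw mu (3 * s')) ≤ 1/4
    refine (hU s').trans ((pow_le_inv hc0 hc1 s').trans ?_)
    have h1 : 54/10 ≤ (s':ℝ) * (27/10 * (1/γ)) := by
      have : (s':ℝ) * (27/10 * (1/γ)) = (s':ℝ) * (27/10) / γ := by ring
      rw [this, le_div_iff₀ hγ0]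
      linarith
    rw [div_le_iff₀ (by linarith)]
    linarith
  refine ⟨?_, ?_, ?_⟩
  · rw [Nat.pos_iff_ne_zero]
    intro h
    have := Nat.sInf_mem hne34
    have e : sInf {t : ℕ | tvUnif (stepLaw mu t) ≤ 3/4} = 0 := h
    rw [e] at this
    have h' : tvUnif (stepLaw mu 0) ≤ 3/4 := this
    linarith
  · by_contra hcon
    push Not at hcon
    have hm : tmix mu (1/4) ∈ {t : ℕ | tvUnif (stepLaw mu t) ≤ 1/4} := Nat.sInf_mem hne14
    have hm' : tvUnif (stepLaw mu (tmix mu (1/4))) ≤ 1/4 := hm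
    have := hlow _ hcon.le
    linarith
  · have h1 : (tmix mu (3/4) : ℝ) ≤ 3 * (s:ℝ) := by exact_mod_cast hT34
    linarith

end Num



theorem primes_seq (N0 : ℕ) : ∃ s : ℕ → ℕ, (∀ j, (s j).Prime) ∧ (∀ j, s j < s (j + 1)) ∧
    (∀ j, s (j + 1) ≤ 2 * s j) ∧ ∀ j, N0 ≤ s j := by
  classical
  obtain ⟨p0, hp0, hp0'⟩ := Nat.exists_infinite_primes N0
  have hex : ∀ n : {n : ℕ // n.Prime}, ∃ p : {n : ℕ // n.Prime}, n.1 < p.1 ∧ p.1 ≤ 2 * n.1 := by
    intro n
    obtain ⟨p, hp, h1, h2⟩ := Nat.exists_prime_lt_and_le_two_mul n.1 n.2.ne_zero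
    exact ⟨⟨p, hp⟩, h1, h2⟩
  choose nx hnx1 hnx2 using hex
  let s : ℕ → {n : ℕ // n.Prime} := fun j => Nat.rec ⟨p0, hp0'⟩ (fun _ x => nx x) j
  have hs : ∀ j, s (j + 1) = nx (s j) := fun j => rfl
  refine ⟨fun j => (s j).1, fun j => (s j).2, fun j => ?_, fun j => ?_, fun j => ?_⟩
  · show (s j).1 < (s (j + 1)).1
    rw [hs]; exact hnx1 _
  · show (s (j + 1)).1 ≤ 2 * (s j).1
    rw [hs]; exact hnx2 _
  · show N0 ≤ (s j).1
    induction j with
    | zero => exact hp0
    | succ j ih => rw [hs]; exact ih.trans (hnx1 _).le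

/-- The arithmetic data of the construction. -/
theorem data (L : ℕ) (hL : 30 ≤ L) : ∃ (p r : Fin (8 ^ L) → ℕ) (q : ℕ),
    (∀ i, (p i).Prime) ∧ (∀ i, (r i).Prime) ∧ q.Prime ∧
    (∀ i, p i < r i) ∧ (∀ i, r i ≤ 2 * p i) ∧ (∀ i, 100 * 8 ^ L ≤ p i) ∧
    Pairwise (Function.onFun Nat.Coprime fun i => p i * r i) ∧
    Nat.Coprime q (∏ i, p i * r i) ∧
    31 ≤ q ∧ 900 ≤ (∏ i, (p i + r i - 1)) ∧
    L * ((∏ i, p i * r i) - 1) ≤ (q - 1) * ∏ i, (p i + r i - 1) ∧
    (q - 1) * ∏ i, (p i + r i - 1) ≤ (2 * L + 1) * ((∏ i, p i * r i) - 1) ∧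
    2 ≤ ∏ i, p i * r i := by
  classical
  obtain ⟨s, hsp, hs1, hs2, hs3⟩ := primes_seq (100 * 8 ^ L + 900)
  have hmono : StrictMono s := strictMono_nat_of_lt_succ hs1
  set p : Fin (8 ^ L) → ℕ := fun i => s (2 * i.1) with hp
  set r : Fin (8 ^ L) → ℕ := fun i => s (2 * i.1 + 1) with hr
  set b : ℕ := ∏ i, (p i + r i - 1) with hb
  set m : ℕ := ∏ i, p i * r i with hm
  have h8 : 0 < 8 ^ L := by positivity
  set i0 : Fin (8 ^ L) := ⟨0, h8⟩ with hi0
  have hpr : ∀ i, p i < r i := fun i => hs1 _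
  have hrp : ∀ i, r i ≤ 2 * p i := fun i => hs2 _
  have hpN : ∀ i, 100 * 8 ^ L + 900 ≤ p i := fun i => hs3 _
  have hfac : ∀ i, p i + r i - 1 ≤ p i * r i := by
    intro i
    have h1 := hpN i
    have h2 := hpr i
    have : p i + r i ≤ p i * r i := by nlinarith
    omega
  have hfac1 : ∀ i, 1 ≤ p i + r i - 1 := by
    intro i
    have h1 := hpN i
    omega
  -- b * p i ≤ 2 * m
  have hbp : ∀ i, b * p i ≤ 2 * m := by
    intro i
    rw [hb, hm, ← Finset.mul_prod_erase Finset.univ _ (Finset.mem_univ i),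
      ← Finset.mul_prod_erase Finset.univ (fun i => p i * r i) (Finset.mem_univ i)]
    have h1 : ∏ x ∈ Finset.univ.erase i, (p x + r x - 1) ≤ ∏ x ∈ Finset.univ.erase i, (p x * r x) :=
      Finset.prod_le_prod' fun x _ => hfac x
    have h2 : (p i + r i - 1) * p i ≤ 2 * (p i * r i) := by
      have h3 : p i + r i - 1 ≤ 2 * r i := by have := hpr i; omega
      calc (p i + r i - 1) * p i ≤ (2 * r i) * p i := Nat.mul_le_mul_right _ h3
        _ = 2 * (p i * r i) := by ring
    calc (p i + r i - 1) * (∏ x ∈ Finset.univ.erase i, (p x + r x - 1)) * p i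
        = ((p i + r i - 1) * p i) * ∏ x ∈ Finset.univ.erase i, (p x + r x - 1) := by ring
      _ ≤ (2 * (p i * r i)) * ∏ x ∈ Finset.univ.erase i, (p x * r x) := Nat.mul_le_mul h2 h1
      _ = 2 * (p i * r i * ∏ x ∈ Finset.univ.erase i, (p x * r x)) := by ring
  have hb1 : 900 ≤ b := by
    have h1 : p i0 + r i0 - 1 ≤ b := by
      rw [hb, ← Finset.mul_prod_erase Finset.univ _ (Finset.mem_univ i0)]
      have : 1 ≤ ∏ x ∈ Finset.univ.erase i0, (p x + r x - 1) :=
        Finset.one_le_prod' fun x _ => hfac1 x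
      exact Nat.le_mul_of_pos_right _ this
    have h2 := hpN i0
    have h3 := hpr i0
    omega
  have hbm : b + 1 ≤ m := by
    have h1 := hbp i0
    have h2 := hpN i0
    nlinarith
  have hm2 : 2 ≤ m := by omega
  have hbpos : 0 < b := by omega
  set d : ℕ := L * (m - 1) / b with hd
  obtain ⟨q, hq, hq1, hq2⟩ := Nat.exists_prime_lt_and_le_two_mul (d + 1) (Nat.succ_ne_zero d)
  have hdr : ∀ i, r i ≤ d := by
    intro i
    rw [hd, Nat.le_div_iff_mul_le hbpos]
    have h1 := hbp i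
    have h2 := hrp i
    have h3 : r i * b ≤ 4 * m := by nlinarith
    have h4 : 4 * m ≤ 8 * (m - 1) := by omega
    calc r i * b ≤ 8 * (m - 1) := h3.trans h4
      _ ≤ L * (m - 1) := Nat.mul_le_mul_right _ (by omega)
  have hdL : L ≤ d := by
    rw [hd, Nat.le_div_iff_mul_le hbpos]
    exact Nat.mul_le_mul le_rfl (by omega : b ≤ m - 1)
  have hdb : d * b ≤ L * (m - 1) := Nat.div_mul_le_self _ _
  have hdb' : L * (m - 1) < (d + 1) * b := by
    have := Nat.lt_div_mul_add hbpos (a := L * (m - 1))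
    rw [← hd] at this
    linarith [this, (by ring : (d + 1) * b = d * b + b)]
  refine ⟨p, r, q, fun i => hsp _, fun i => hsp _, hq, hpr, hrp, fun i => ?_, ?_, ?_, ?_, hb1, ?_, ?_, hm2⟩
  · have := hpN i; omega
  · intro i j hij
    have hij' : i.1 ≠ j.1 := fun h => hij (Fin.ext h)
    have cop : ∀ a c : ℕ, a ≠ c → Nat.Coprime (s a) (s c) := fun a c hac =>
      (Nat.coprime_primes (hsp a) (hsp c)).2 fun h => hac (hmono.injective h)
    show Nat.Coprime (p i * r i) (p j * r j)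
    refine Nat.Coprime.mul_left ?_ ?_ <;> refine Nat.Coprime.mul_right ?_ ?_ <;>
      refine cop _ _ ?_ <;> omega
  · refine Nat.Coprime.prod_right fun i _ => ?_
    have h1 := hdr i
    have h2 := hpr i
    refine Nat.Coprime.mul_right ?_ ?_
    · exact (Nat.coprime_primes hq (hsp _)).2 (by
        intro h
        have : q = p i := h
        omega)
    · exact (Nat.coprime_primes hq (hsp _)).2 (by
        intro h
        have : q = r i := h
        omega)
  · omega
  · calc L * (m - 1) ≤ (d + 1) * b := hdb'.le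
      _ ≤ (q - 1) * b := Nat.mul_le_mul_right _ (by omega)
  · calc (q - 1) * b ≤ (2 * d + 1) * b := Nat.mul_le_mul_right _ (by omega)
      _ = 2 * (d * b) + b := by ring
      _ ≤ 2 * (L * (m - 1)) + (m - 1) := by omega
      _ = (2 * L + 1) * (m - 1) := by ring

/-! ### Assembly -/

theorem stepLaw_ne_zero_mem_closure {G : Type*} [Fintype G] [AddCommGroup G] [DecidableEq G]
    (mu : G → ℝ) (t : ℕ) : ∀ x, stepLaw mu t x ≠ 0 → x ∈ AddSubgroup.closure {x | mu x ≠ 0} := by
  induction t with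
  | zero =>
    intro x hx
    rw [stepLaw_zero] at hx
    have : x = 0 := by
      by_contra h
      exact hx (if_neg h)
    rw [this]
    exact AddSubgroup.zero_mem _
  | succ t ih =>
    intro x hx
    simp only [stepLaw_succ, conv] at hx
    obtain ⟨y, _, hy⟩ := Finset.exists_ne_zero_of_sum_ne_zero hx
    have h1 : mu y ≠ 0 := left_ne_zero_of_mul hy
    have h2 : stepLaw mu t (x - y) ≠ 0 := right_ne_zero_of_mul hy
    have h3 := ih _ h2
    have h4 : y ∈ AddSubgroup.closure {x | mu x ≠ 0} := AddSubgroup.subset_closure h1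
    have : x = (x - y) + y := by abel
    rw [this]
    exact AddSubgroup.add_mem _ h3 h4

theorem stepLaw_pos_of {G : Type*} [Fintype G] [AddCommGroup G] [DecidableEq G]
    {mu : G → ℝ} (h0 : ∀ x, 0 ≤ mu x) (h1 : ∑ x, mu x = 1) (m : ℕ)
    (hm : ∀ x, 0 < stepLaw mu m x) : ∀ t ≥ m, ∀ x, 0 < stepLaw mu t x := by
  intro t ht x
  obtain ⟨s, rfl⟩ := Nat.exists_eq_add_of_le ht
  rw [add_comm, stepLaw_add]
  have hs := sum_stepLaw h1 s
  have hex : ∃ y, 0 < stepLaw mu s y := by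
    by_contra hcon
    push Not at hcon
    have : ∑ x, stepLaw mu s x ≤ 0 := Finset.sum_nonpos fun x _ => hcon x
    linarith
  obtain ⟨y, hy⟩ := hex
  unfold conv
  refine Finset.sum_pos' (fun z _ => mul_nonneg (stepLaw_nonneg h0 s z) (hm _).le)
    ⟨y, Finset.mem_univ _, mul_pos hy (hm _)⟩

/-- Eigenvalue bound on the cycle from a character sum bound in an isomorphic group. -/
theorem eig_bound {G : Type*} [Fintype G] [AddCommGroup G] [DecidableEq G]
    (n : ℕ) [hnz : NeZero n] (e : ZMod n ≃+ G) (S : Finset G) (hSne : S.Nonempty)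
    (hchar : ∀ φ : AddChar G ℂ, φ ≠ 1 → ‖∑ z ∈ S, φ z‖ ≤ (3/4) * (S.card : ℝ))
    (j : ZMod n) (hj : j ≠ 0) :
    |∑ x : ZMod n, unif S (e x) * Real.cos (2 * Real.pi * (j.val : ℝ) * (x.val : ℝ) / (n : ℝ))| ≤ 3/4 := by
  classical
  set N : ℝ := (S.card : ℝ) with hN
  have hNpos : 0 < N := by
    rw [hN]; exact_mod_cast Finset.card_pos.2 hSne
  set ψ : AddChar (ZMod n) ℂ := ZMod.stdAddChar.mulShift j with hψ
  have hψne : ψ ≠ 1 := ZMod.isPrimitive_stdAddChar n hj
  set φ : AddChar G ℂ := ψ.compAddMonoidHom e.symm.toAddMonoidHom with hφ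
  have hφx : ∀ x, φ (e x) = ψ x := by intro x; simp [hφ]
  have hφne : φ ≠ 1 := by
    intro h
    apply hψne
    ext x
    rw [← hφx, h]
    simp
  have hre : ∀ x : ZMod n, (ψ x).re =
      Real.cos (2 * Real.pi * (j.val : ℝ) * (x.val : ℝ) / (n : ℝ)) := by
    intro x
    have h1 : ψ x = ZMod.stdAddChar (((j.val * x.val : ℕ) : ℤ) : ZMod n) := by
      rw [hψ, AddChar.mulShift_apply]
      congr 1
      push_cast
      rw [ZMod.natCast_zmod_val, ZMod.natCast_zmod_val]
    rw [h1, ZMod.stdAddChar_coe]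
    have h2 : (2 * (Real.pi : ℂ) * Complex.I * (((j.val * x.val : ℕ) : ℤ) : ℂ) / (n : ℂ)) =
        ((2 * Real.pi * (j.val : ℝ) * (x.val : ℝ) / (n : ℝ) : ℝ) : ℂ) * Complex.I := by
      push_cast
      ring
    rw [h2, Complex.exp_ofReal_mul_I_re]
  have hsum : ∑ x : ZMod n, unif S (e x) *
      Real.cos (2 * Real.pi * (j.val : ℝ) * (x.val : ℝ) / (n : ℝ)) =
      ((1 / (N:ℂ)) * ∑ z ∈ S, φ z).re := by
    have h1 : ∑ z ∈ S, φ z = ∑ x : ZMod n, (if e x ∈ S then (1:ℂ) else 0) * ψ x := by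
      have h2 : ∑ z ∈ S, φ z = ∑ z : G, (if z ∈ S then (1:ℂ) else 0) * φ z := by
        simp [Finset.sum_ite_mem]
      rw [h2, ← Equiv.sum_comp e.toEquiv]
      refine Finset.sum_congr rfl fun x _ => ?_
      rw [← hφx x]
      rfl
    rw [h1, Finset.mul_sum, Complex.re_sum]
    refine Finset.sum_congr rfl fun x _ => ?_
    rw [← hre x]
    simp only [unif]
    split_ifs
    · have : (1 / (N:ℂ)) * (1 * ψ x) = ((1 / N : ℝ) : ℂ) * ψ x := by push_cast; ring
      rw [this, Complex.re_ofReal_mul]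
    · simp
  rw [hsum]
  refine (Complex.abs_re_le_norm _).trans ?_
  rw [norm_mul, norm_div, norm_one, Complex.norm_real, Real.norm_eq_abs, abs_of_pos hNpos]
  have hfin := hchar φ hφne
  rw [one_div, inv_mul_le_iff₀ hNpos]
  linarith

/-- Transfer to the cycle: from a symmetric set in a group isomorphic to `ZMod n`. -/
theorem walk_of_equiv {G : Type*} [Fintype G] [AddCommGroup G] [DecidableEq G]
    (n : ℕ) [hnz : NeZero n] (hn2 : 2 ≤ n) (e : ZMod n ≃+ G) (S : Finset G) (hSne : S.Nonempty)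
    (hsymS : ∀ z, z ∈ S → -z ∈ S) (hS0 : (0 : G) ∉ S)
    (hpos : ∀ z, 0 < stepLaw (unif S) 3 z)
    (hchar : ∀ φ : AddChar G ℂ, φ ≠ 1 → ‖∑ z ∈ S, φ z‖ ≤ (3/4) * (S.card : ℝ)) :
    ∃ W : CycleWalk, W.n = n ∧ IsSimpleRandomWalk W ∧ lamStar W ≤ 3/4 ∧
      ∀ ε, mixTime W ε = tmix (unif S) ε := by
  classical
  set N : ℝ := (S.card : ℝ) with hN
  have hNpos : 0 < N := by
    rw [hN]; exact_mod_cast Finset.card_pos.2 hSne
  set nu : G → ℝ := unif S with hnu
  have hnu0 : ∀ z, 0 ≤ nu z := unif_nonneg _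
  have hnu1 : ∑ z, nu z = 1 := sum_unif _ hSne
  set mu : ZMod n → ℝ := fun x => nu (e x) with hmu
  have hstep : ∀ t, stepLaw mu t = fun x => stepLaw nu t (e x) := fun t => stepLaw_transport e nu t
  have hmu0 : ∀ x, 0 ≤ mu x := fun x => hnu0 _
  have hmu1 : ∑ x, mu x = 1 := by
    rw [← hnu1]
    exact Equiv.sum_comp e.toEquiv nu
  have hpos3 : ∀ x, 0 < stepLaw mu 3 x := by
    intro x
    rw [hstep]
    exact hpos _
  have hposall := stepLaw_pos_of hmu0 hmu1 3 hpos3
  have hsym : ∀ x, mu (-x) = mu x := by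
    intro x
    simp only [hmu, hnu, unif, map_neg]
    have : -(e x) ∈ S ↔ e x ∈ S := by
      constructor
      · intro h
        have := hsymS _ h
        rwa [neg_neg] at this
      · exact hsymS _
    simp only [this]
  have hirr : AddSubgroup.closure {x | mu x ≠ 0} = ⊤ := by
    rw [eq_top_iff]
    intro x _
    exact stepLaw_ne_zero_mem_closure mu 3 x (hpos3 x).ne'
  refine ⟨{ n := n, neZero := hnz, two_le := hn2, mu := mu, nonneg := hmu0, sum_one := hmu1,
            symm := hsym, irred := hirr, aper := ⟨3, fun t ht => hposall t ht 0⟩ }, rfl, ?_, ?_, ?_⟩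
  · -- simple random walk
    refine ⟨S.map e.symm.toEquiv.toEmbedding, ?_, ?_⟩
    · intro h
      rw [Finset.mem_map] at h
      obtain ⟨z, hz, hz'⟩ := h
      have : z = 0 := by
        have h1 : e.symm z = 0 := hz'
        rwa [map_eq_zero_iff e.symm e.symm.injective] at h1
      rw [this] at hz
      exact hS0 hz
    · intro x
      show mu x = _
      simp only [hmu, hnu, unif, Finset.card_map]
      have : x ∈ S.map e.symm.toEquiv.toEmbedding ↔ e x ∈ S := by
        rw [Finset.mem_map]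
        constructor
        · rintro ⟨z, hz, hz'⟩
          have h1 : e.symm z = x := hz'
          rw [← h1, AddEquiv.apply_symm_apply]
          exact hz
        · intro h
          exact ⟨e x, h, by simp⟩
      simp only [this]
  · -- eigenvalues
    have hfact : Fact (1 < n) := ⟨by omega⟩
    have hnon : Nonempty {j : ZMod n // j ≠ 0} := ⟨⟨1, one_ne_zero⟩⟩
    exact ciSup_le fun j => eig_bound n e S hSne hchar j.1 j.2
  · intro ε
    show tmix mu ε = tmix nu ε
    exact tmix_transport e nu ε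

/-- The cycle of order `q * ∏ p_i r_i` as a product of groups. -/
theorem exists_equiv {K : ℕ} (p r : Fin K → ℕ) (q : ℕ) (hpr : ∀ i, Nat.Coprime (p i) (r i))
    (hpw : Pairwise (Function.onFun Nat.Coprime fun i => p i * r i))
    (hcop : Nat.Coprime q (∏ i, p i * r i)) :
    Nonempty (ZMod (q * ∏ i, p i * r i) ≃+ ZMod q × (∀ i, ZMod (p i) × ZMod (r i))) := by
  let e1 : ZMod (q * ∏ i, p i * r i) ≃+* ZMod q × ZMod (∏ i, p i * r i) := ZMod.chineseRemainder hcop
  let e2 : ZMod (∏ i, p i * r i) ≃+* ∀ i, ZMod (p i * r i) := ZMod.prodEquivPi _ hpw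
  let e3 : (∀ i, ZMod (p i * r i)) ≃+* ∀ i, ZMod (p i) × ZMod (r i) :=
    RingEquiv.piCongrRight fun i => ZMod.chineseRemainder (hpr i)
  exact ⟨(e1.trans (RingEquiv.prodCongr (RingEquiv.refl _) (e2.trans e3))).toAddEquiv⟩

theorem neg_mem_ss_bset {A : Type*} [Fintype A] [AddCommGroup A] [DecidableEq A]
    {ι : Type*} [Fintype ι] [DecidableEq ι] {X Y : ι → Type*} [∀ i, Fintype (X i)]
    [∀ i, Fintype (Y i)] [∀ i, AddCommGroup (X i)] [∀ i, AddCommGroup (Y i)]
    [∀ i, DecidableEq (X i)] [∀ i, DecidableEq (Y i)] (z : A × (∀ i, X i × Y i))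
    (hz : z ∈ ss A (bset X Y)) : -z ∈ ss A (bset X Y) := by
  simp only [ss, Finset.mem_filter, Finset.mem_univ, true_and, Prod.fst_neg, Prod.snd_neg, ne_eq,
    neg_eq_zero, bset, Fintype.mem_piFinset, cross, Pi.neg_apply] at hz ⊢
  exact hz

/-- Existence of one walk for each value of the parameter. -/
theorem exists_walk (L : ℕ) (hL : 30 ≤ L) : ∃ W : CycleWalk, L ≤ W.n ∧ IsSimpleRandomWalk W ∧
    lamStar W ≤ 3/4 ∧ 0 < mixTime W (3/4) ∧ (L:ℝ) / 2 ≤ (mixTime W (1/4) : ℝ) ∧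
    (4/3 : ℝ) * (mixTime W (3/4) : ℝ) ≤ (mixTime W (1/4) : ℝ) := by
  classical
  obtain ⟨p, r, q, hp, hr, hq, hpr, hrp, hpN, hpw, hcop, hq31, hb900, hlow, hup, hm2⟩ := data L hL
  have i1 : ∀ i, NeZero (p i) := fun i => ⟨(hp i).ne_zero⟩
  have i2 : ∀ i, NeZero (r i) := fun i => ⟨(hr i).ne_zero⟩
  have i3 : NeZero q := ⟨hq.ne_zero⟩
  have hnz : NeZero (q * ∏ i, p i * r i) := ⟨mul_ne_zero hq.ne_zero (by omega)⟩
  have hpr_cop : ∀ i, Nat.Coprime (p i) (r i) := fun i =>
    (Nat.coprime_primes (hp i) (hr i)).2 (by have := hpr i; omega)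
  obtain ⟨e⟩ := exists_equiv p r q hpr_cop hpw hcop
  set B : Finset (∀ i, ZMod (p i) × ZMod (r i)) :=
    bset (fun i => ZMod (p i)) (fun i => ZMod (r i)) with hB
  have hcardB : (B.card : ℝ) = ((∏ i, (p i + r i - 1) : ℕ) : ℝ) := by
    rw [hB, card_bset]
    push_cast
    refine Finset.prod_congr rfl fun i _ => ?_
    have h1 : 1 ≤ p i + r i := by have := (hp i).pos; omega
    rw [Nat.cast_sub h1, ZMod.card, ZMod.card]
    push_cast
    ring
  have hcardH : Fintype.card (∀ i, ZMod (p i) × ZMod (r i)) = ∏ i, p i * r i := by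
    rw [Fintype.card_pi]
    refine Finset.prod_congr rfl fun i _ => ?_
    rw [Fintype.card_prod, ZMod.card, ZMod.card]
  have hcardA : Fintype.card (ZMod q) = q := ZMod.card q
  have hbmn : (∏ i, (p i + r i - 1)) ≤ ∏ i, p i * r i := by
    refine Finset.prod_le_prod' fun i _ => ?_
    have h3 := (hp i).two_le
    have h4 := (hr i).two_le
    have : p i + r i ≤ p i * r i := by nlinarith
    omega
  generalize hm : (∏ i, p i * r i) = m at *
  generalize hb : (∏ i, (p i + r i - 1)) = b at *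
  have hcardBn : B.card = b := by exact_mod_cast hcardB
  set N : ℝ := ((ss (ZMod q) B).card : ℝ) with hN
  have hNe : N = ((q:ℝ) - 1) * (b:ℝ) + ((m:ℝ) - 1) := by
    rw [hN, card_ss, hcardA, hcardH, hcardB]
  have hm1 : (1:ℝ) < m := by exact_mod_cast hm2
  have hq1 : 1 ≤ q := hq.one_le
  have h1m : 1 ≤ m := by omega
  have hlow' : (L:ℝ) * ((m:ℝ) - 1) ≤ ((q:ℝ) - 1) * b := by
    have h2 : ((L * (m - 1) : ℕ) : ℝ) ≤ (((q - 1) * b : ℕ) : ℝ) := by exact_mod_cast hlow
    rw [Nat.cast_mul, Nat.cast_mul, Nat.cast_sub h1m, Nat.cast_sub hq1] at h2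
    simpa using h2
  have hup' : ((q:ℝ) - 1) * b ≤ (2 * (L:ℝ) + 1) * ((m:ℝ) - 1) := by
    have h2 : (((q - 1) * b : ℕ) : ℝ) ≤ (((2 * L + 1) * (m - 1) : ℕ) : ℝ) := by exact_mod_cast hup
    rw [Nat.cast_mul, Nat.cast_mul, Nat.cast_sub h1m, Nat.cast_sub hq1] at h2
    push_cast at h2
    exact h2
  have hm0 : (0:ℝ) < (m:ℝ) - 1 := by linarith
  have hL' : (30:ℝ) ≤ L := by exact_mod_cast hL
  have hg31 : 31 * ((Fintype.card (∀ i, ZMod (p i) × ZMod (r i)) : ℝ) - 1) ≤
      ((ss (ZMod q) B).card : ℝ) := by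
    rw [← hN, hNe, hcardH]
    nlinarith
  have hNpos : 0 < N := by rw [hNe]; nlinarith
  have hSne : (ss (ZMod q) B).Nonempty := by
    rw [← Finset.card_pos]
    have : (0:ℝ) < ((ss (ZMod q) B).card : ℝ) := hNpos
    exact_mod_cast this
  set γ : ℝ := N / ((m:ℝ) - 1) with hγ
  have hγ1 : (L:ℝ) + 1 ≤ γ := by
    rw [hγ, le_div_iff₀ hm0, hNe]; linarith
  have hγ2 : γ ≤ 2 * L + 2 := by
    rw [hγ, div_le_iff₀ hm0, hNe]; linarith
  have hγinv : 1 / γ = ((m:ℝ) - 1) / N := by rw [hγ, one_div_div]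
  have hγ0 : 0 < γ := by linarith
  have hminor : ∀ z, (27/10 * (1/γ)) / (Fintype.card (ZMod q × (∀ i, ZMod (p i) × ZMod (r i))) : ℝ) ≤
      stepLaw (unif (ss (ZMod q) B)) 3 z := by
    intro z
    have := minor B (by rw [hcardA]; exact hq31) (by rw [hcardBn]; exact hb900)
      (by rw [hcardH]; exact hm2) hg31 z
    rw [hcardH] at this
    rw [hγinv]
    norm_num at this ⊢
    exact this
  have hUp : ∀ s : ℕ, tvUnif (stepLaw (unif (ss (ZMod q) B)) (3 * s)) ≤ (1 - 27/10 * (1/γ)) ^ s := fun s =>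
    tv_doeblin_iter (unif_nonneg _) (sum_unif _ hSne) (by positivity) 3 hminor s
  have hLw : ∀ t : ℕ, (1 - 1/γ) ^ t * (1 - (1 - (1/2) ^ t) ^ (8 ^ L)) -
      (1 - (1 - 1/(100 * (8:ℝ) ^ L)) ^ (8 ^ L)) ≤ tvUnif (stepLaw (unif (ss (ZMod q) B)) t) := by
    intro t
    have := tv_lower_main (A := ZMod q) (X := fun i => ZMod (p i)) (Y := fun i => ZMod (r i))
      (fun i => by rw [ZMod.card, ZMod.card]; have := hpr i; omega) (100 * (8:ℝ) ^ L)
      (by
        have : (1:ℝ) ≤ (8:ℝ) ^ L := one_le_pow₀ (by norm_num)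
        linarith)
      (fun i => by rw [ZMod.card]; exact_mod_cast hpN i) hSne (by rw [hcardA]; exact hq1) t
    rw [Fintype.card_fin, hcardA, ← hB, ← hN, hcardB] at this
    have h1 : (1 - 1/γ) = ((q:ℝ) - 1) * (b:ℝ) / N := by
      rw [hγinv, eq_div_iff hNpos.ne', sub_mul, div_mul_cancel₀ _ hNpos.ne', hNe]
      ring
    rw [h1]
    exact this
  obtain ⟨hT34, hT14, hT34'⟩ := numerics (unif (ss (ZMod q) B)) L hL γ (100 * (8:ℝ) ^ L) hγ1 hγ2
    le_rfl hUp hLw
  have hn2 : 2 ≤ q * m := by nlinarith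
  have hpos3 : ∀ z, 0 < stepLaw (unif (ss (ZMod q) B)) 3 z := by
    intro z
    refine lt_of_lt_of_le ?_ (hminor z)
    have : (0:ℝ) < (Fintype.card (ZMod q × (∀ i, ZMod (p i) × ZMod (r i))) : ℝ) := card_pos'
    positivity
  have hBchar : ∀ χ : AddChar (∀ i, ZMod (p i) × ZMod (r i)) ℂ, χ ≠ 1 →
      ‖∑ x ∈ B, χ x‖ ≤ (2/3) * (B.card : ℝ) := by
    intro χ hχ
    refine sum_bset_char hχ (fun i => ?_) (fun i => ?_) (fun i => ?_) (fun i => ?_)
    · rw [ZMod.card]; exact (hp i).two_le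
    · rw [ZMod.card]; exact (hr i).two_le
    · rw [ZMod.card, ZMod.card]; have := hpr i; omega
    · rw [ZMod.card, ZMod.card]; have := hrp i; omega
  obtain ⟨W, hWn, hW1, hW2, hW3⟩ := walk_of_equiv (q * m) hn2 e (ss (ZMod q) B) hSne
    (fun z hz => neg_mem_ss_bset z hz) (by simp [ss]) hpos3
    (fun φ hφ => char_ss (A := ZMod q) B hBchar (by rw [hcardA]; exact hq31) hg31 hφ)
  refine ⟨W, ?_, hW1, hW2, ?_, ?_, ?_⟩
  · rw [hWn]
    have h2 : (L:ℝ) ≤ q * m := by
      have hbm : (b:ℝ) ≤ m := by exact_mod_cast hbmn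
      have hq1' : (1:ℝ) ≤ q := by exact_mod_cast hq1
      have h5 : ((q:ℝ) - 1) * b ≤ ((q:ℝ) - 1) * m := mul_le_mul_of_nonneg_left hbm (by linarith)
      have h6 : (m:ℝ) ≤ 2 * ((m:ℝ) - 1) := by
        have : (2:ℝ) ≤ m := by exact_mod_cast hm2
        linarith
      nlinarith
    exact_mod_cast h2
  · rw [hW3]; exact hT34
  · rw [hW3]; linarith
  · rw [hW3, hW3]; linarith

theorem lamStar_nonneg (W : CycleWalk) : 0 ≤ lamStar W := by
  unfold lamStar
  exact Real.iSup_nonneg fun j => abs_nonneg _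

end Pool.Agent.Helper97.CycleProof
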